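import Pool.Agent.R578.SE.Defs
import Pool.Agent.H750R3.Exist

/-!
# Two-sided gamma positivity for even and odd signed permutations (MP_12caf3_co): definitions
-/

namespace Pool.Agent.R578.TS

open Pool.Agent.R578.SE Finset Equiv

/-- the inverse signed permutation -/
def sinv {n : ℕ} (w : SP n) : SP n := (w.1⁻¹, fun i => w.2 (w.1 i))

/-- comparison sign of two integer letters: `+1` iff `|a| < |b|` or (`|a| = |b|` and `b ≥ 0`) -/
def cz (a b : ℤ) : ℤ := if a.natAbs < b.natAbs ∨ (a.natAbs = b.natAbs ∧ 0 ≤ b) then 1 else -1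

/-- sign of a word of integers -/
def ep : List ℤ → ℤ
  | [] => 1
  | b :: w => (if b < 0 then -1 else 1) * (w.map (cz b)).prod * ep w

/-- sign of the word `w` after the prefix `u` -/
def eu (u w : List ℤ) : ℤ := (w.map (fun b => (u.map (fun a => cz a b)).prod)).prod * ep w

/-- descents of a list of integers -/
def dl : List ℤ → ℕ
  | [] => 0
  | [_] => 0
  | a :: b :: w => (if b < a then 1 else 0) + dl (b :: w)

/-- sum of `f` over the words of length `n` which are weakly increasing in the letters of the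
list `L` (letters at different places of `L` are considered different) -/
def S : List ℤ → ℕ → (List ℤ → ℤ) → ℤ
  | _, 0, f => f []
  | [], (_ + 1), _ => 0
  | (a :: L), (n + 1), f => S (a :: L) n (fun w => f (a :: w)) + S L (n + 1) f
termination_by L n _ => (L.length, n)

/-- the list `-l, …, -1, 0, 1, …, l` -/
def Lt : ℕ → List ℤ
  | 0 => [0]
  | (l + 1) => (-((l : ℤ) + 1)) :: (Lt l ++ [(l : ℤ) + 1])

/-- the list `0, 1, …, l` -/
def L0 : ℕ → List ℤ
  | 0 => [0]
  | (l + 1) => L0 l ++ [(l : ℤ) + 1]

/-- `0,…,l` followed by `k` copies of `-l,…,l` -/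
def LL (k l : ℕ) : List ℤ := L0 l ++ (List.replicate k (Lt l)).flatten

/-- `multichoose y j = y (y+1) … (y+j-1) / j!` as a function of a rational number -/
noncomputable def mc (y : ℚ) (j : ℕ) : ℚ := (ascPochhammer ℚ j).eval y / j.factorial

/-- the function `Q_{n,j}(x,y) = mc (x y) j * mc ((x+1)(y+1)) (n-j)` -/
noncomputable def Qf (n j : ℕ) (x y : ℚ) : ℚ := mc (x * y) j * mc ((x + 1) * (y + 1)) (n - j)

end Pool.Agent.R578.TS
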