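import Pool.Agent.R578.TS.Stmts

/-!
# Piece TS-1 of MP_12caf3_co: the sum over admissible words is a sum over block words
-/

namespace Pool.Agent.R578.TS

open Pool.Agent.R578.SE Finset Equiv

namespace P1

/-- number of ways to write a word as a block word -/
def N : List ℤ → List ℤ → ℕ
  | _, [] => 1
  | [], (_ :: _) => 0
  | (a :: L), (b :: t) => (if b = a then N (a :: L) t else 0) + N L (b :: t)
termination_by L t => (L.length, t.length)

theorem ind_sum {l : ℕ} (a : ℤ) (h1 : -(l : ℤ) ≤ a) (h2 : a ≤ l) (c : ℤ) :
    ∑ y : Let l, ind y * (if hh y = a then c else 0) = c := by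
  have hlt : a.natAbs < l + 1 := by omega
  rw [Finset.sum_eq_single ((⟨a.natAbs, hlt⟩, decide (a < 0)) : Let l)]
  · by_cases ha : a < 0
    · have e1 : hh ((⟨a.natAbs, hlt⟩, decide (a < 0)) : Let l) = a := by
        unfold hh
        simp only [ha, decide_true, if_true]
        omega
      have e2 : ind ((⟨a.natAbs, hlt⟩, decide (a < 0)) : Let l) = 1 := by
        unfold ind
        rw [if_pos]
        intro _
        simp only
        omega
      rw [e1, e2, if_pos rfl, one_mul]
    · have e1 : hh ((⟨a.natAbs, hlt⟩, decide (a < 0)) : Let l) = a := by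
        unfold hh
        simp only [ha, decide_false, Bool.false_eq_true, if_false]
        omega
      have e2 : ind ((⟨a.natAbs, hlt⟩, decide (a < 0)) : Let l) = 1 := by
        unfold ind
        rw [if_pos]
        simp [ha]
      rw [e1, e2, if_pos rfl, one_mul]
  · rintro ⟨b, s⟩ _ hne
    by_cases h : hh ((b, s) : Let l) = a
    · have : ind ((b, s) : Let l) = 0 := by
        unfold ind
        rw [if_neg]
        intro h3
        apply hne
        unfold hh at h
        rcases s with _ | _
        · simp only [Bool.false_eq_true, if_false] at h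
          apply Prod.ext
          · ext
            simp only
            omega
          · simp only
            symm
            rw [decide_eq_false_iff_not]
            omega
        · have h4 := h3 rfl
          simp only [if_true] at h h4
          apply Prod.ext
          · ext
            simp only
            omega
          · simp only
            symm
            rw [decide_eq_true_iff]
            omega
      rw [this, zero_mul]
    · rw [if_neg h, mul_zero]
  · intro h
    exact absurd (Finset.mem_univ _) h

theorem S_eq {l : ℕ} : ∀ (L : List ℤ), (∀ a ∈ L, -(l : ℤ) ≤ a ∧ a ≤ l) →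
    ∀ (n : ℕ) (f : List ℤ → ℤ),
    ∑ x : Fin n → Let l, (∏ v, ind (x v)) * (f (List.ofFn fun v => hh (x v)) *
      ((N L (List.ofFn fun v => hh (x v)) : ℕ) : ℤ)) = S L n f := by
  intro L
  induction L with
  | nil =>
    intro _ n f
    rcases n with _ | n
    · simp [N, S]
    · rw [S]
      apply Finset.sum_eq_zero
      intro x _
      rw [List.ofFn_succ, N]
      simp
  | cons a L ihL =>
    intro hL n
    have ha := hL a (by simp)
    have hL' : ∀ b ∈ L, -(l : ℤ) ≤ b ∧ b ≤ l := fun b hb => hL b (by simp [hb])
    induction n with
    | zero =>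
      intro f
      simp [N, S]
    | succ n ihn =>
      intro f
      rw [S, ← ihn, ← ihL hL' (n + 1) f, sum_cons, sum_cons]
      have key : ∀ (y : Let l) (x : Fin n → Let l),
          (∏ v, ind ((Fin.cons y x : Fin (n + 1) → Let l) v)) *
            (f (List.ofFn fun v => hh ((Fin.cons y x : Fin (n + 1) → Let l) v)) *
            ((N (a :: L) (List.ofFn fun v => hh ((Fin.cons y x : Fin (n + 1) → Let l) v)) : ℕ) : ℤ))
          = ind y * (if hh y = a then (∏ v, ind (x v)) * (f (a :: List.ofFn fun v => hh (x v)) *
              ((N (a :: L) (List.ofFn fun v => hh (x v)) : ℕ) : ℤ)) else 0) +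
            (∏ v, ind ((Fin.cons y x : Fin (n + 1) → Let l) v)) *
            (f (List.ofFn fun v => hh ((Fin.cons y x : Fin (n + 1) → Let l) v)) *
            ((N L (List.ofFn fun v => hh ((Fin.cons y x : Fin (n + 1) → Let l) v)) : ℕ) : ℤ)) := by
        intro y x
        rw [List.ofFn_succ, N, Fin.prod_univ_succ]
        simp only [Fin.cons_zero, Fin.cons_succ]
        by_cases h : hh y = a
        · rw [if_pos h, if_pos h, h]
          push_cast
          ring
        · rw [if_neg h, if_neg h]
          push_cast
          ring
      simp only [key, Finset.sum_add_distrib]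
      congr 1
      rw [Finset.sum_comm]
      apply Finset.sum_congr rfl
      intro x _
      exact ind_sum a ha.1 ha.2 _

/-- the list `l - c, …, l` -/
def U : ℕ → ℤ → List ℤ
  | 0, l => [l]
  | (c + 1), l => (l - (c + 1)) :: U c l

theorem U_append (c : ℕ) (l : ℤ) : U c l ++ [l + 1] = U (c + 1) (l + 1) := by
  induction c with
  | zero => simp [U]
  | succ c ih =>
    rw [U, List.cons_append, ih]
    conv_rhs => rw [U]
    congr 1
    push_cast
    ring

theorem L0_eq (l : ℕ) : L0 l = U l (l : ℤ) := by
  induction l with
  | zero => simp [L0, U]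
  | succ l ih =>
    rw [L0, ih, U_append]
    push_cast
    rfl

theorem Lt_eq (l : ℕ) : Lt l = U (2 * l) (l : ℤ) := by
  induction l with
  | zero => simp [Lt, U]
  | succ l ih =>
    rw [Lt, ih, U_append]
    have : 2 * (l + 1) = (2 * l + 1) + 1 := by ring
    rw [this, U]
    congr 1
    · push_cast
      ring

theorem mem_U (c : ℕ) (l a : ℤ) : a ∈ U c l → l - c ≤ a ∧ a ≤ l := by
  induction c with
  | zero =>
    intro h
    simp only [U, List.mem_singleton] at h
    rw [h]
    simp
  | succ c ih =>
    intro h
    rw [U, List.mem_cons] at h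
    rcases h with h | h
    · rw [h]
      push_cast
      constructor <;> omega
    · have := ih h
      push_cast
      constructor <;> omega

theorem dl_le : ∀ (t : List ℤ) (b : ℤ), dl (b :: t) ≤ t.length := by
  intro t
  induction t with
  | nil => intro b; simp [dl]
  | cons a t ih =>
    intro b
    rw [dl, List.length_cons]
    have := ih a
    split_ifs <;> omega

/-- blocks -/
def rep (j l : ℕ) : List ℤ := (List.replicate j (Lt l)).flatten

theorem rep_succ (j l : ℕ) : rep (j + 1) l = U (2 * l) (l : ℤ) ++ rep j l := by
  unfold rep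
  rw [List.replicate_succ, List.flatten_cons, Lt_eq]

/-- formula for the number of block decompositions, given the formula for the remaining blocks -/
theorem N_U (l j : ℕ) (hG : ∀ (b : ℤ) (t : List ℤ), (∀ a ∈ b :: t, -(l : ℤ) ≤ a ∧ a ≤ l) →
      N (rep j l) (b :: t) = (j + (t.length + 1) - (dl (b :: t) + 1)).choose (t.length + 1)) :
    ∀ (h : List ℤ), (∀ a ∈ h, -(l : ℤ) ≤ a ∧ a ≤ l) → ∀ c : ℕ, 
      N (U c l ++ rep j l) h = (j + h.length - dl ((l - c : ℤ) :: h)).choose h.length := by
  intro h
  induction h with
  | nil =>
    intro _ c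
    simp [N]
  | cons b t ih =>
    intro hh
    have ht : ∀ a ∈ t, -(l : ℤ) ≤ a ∧ a ≤ l := fun a ha => hh a (by simp [ha])
    have hb := hh b (by simp)
    have hd := dl_le t b
    intro c
    induction c with
    | zero =>
      rw [U, List.singleton_append, N, hG b t hh, dl, List.length_cons]
      by_cases h1 : b = l
      · subst h1
        have h2 := ih ht 0
        rw [U, List.singleton_append] at h2
        simp only [Nat.cast_zero, sub_zero] at h2 ⊢
        rw [if_pos trivial, h2, if_neg (lt_irrefl _)]
        have e1 : j + (t.length + 1) - (0 + dl ((l : ℤ) :: t)) = (j + t.length - dl ((l : ℤ) :: t)) + 1 := by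
          omega
        have e2 : j + (t.length + 1) - (dl ((l : ℤ) :: t) + 1) = j + t.length - dl ((l : ℤ) :: t) := by
          omega
        rw [e1, e2, Nat.choose_succ_succ']
      · rw [if_neg h1, if_pos (by push_cast; omega), zero_add]
        congr 1
        omega
    | succ c ihc =>
      rw [U, List.cons_append, N, ihc, dl, dl, List.length_cons]
      push_cast
      by_cases h1 : b = l - (c + 1)
      · have h2 := ih ht (c + 1)
        rw [U, List.cons_append] at h2
        push_cast at h2
        rw [← h1] at h2 ⊢
        rw [if_pos rfl, h2, if_pos (by omega), if_neg (lt_irrefl _)]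
        have e1 : j + (t.length + 1) - (0 + dl (b :: t)) = (j + t.length - dl (b :: t)) + 1 := by
          omega
        have e2 : j + (t.length + 1) - (1 + dl (b :: t)) = j + t.length - dl (b :: t) := by
          omega
        rw [e1, e2, Nat.choose_succ_succ']
      · rw [if_neg h1, zero_add]
        by_cases h3 : b < l - (c + 1)
        · rw [if_pos h3, if_pos (by omega)]
        · rw [if_neg h3, if_neg (by omega)]

theorem N_rep (l : ℕ) : ∀ (j : ℕ) (b : ℤ) (t : List ℤ), (∀ a ∈ b :: t, -(l : ℤ) ≤ a ∧ a ≤ l) →
    N (rep j l) (b :: t) = (j + (t.length + 1) - (dl (b :: t) + 1)).choose (t.length + 1) := by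
  intro j
  induction j with
  | zero =>
    intro b t _
    have : rep 0 l = [] := by simp [rep]
    rw [this, N, Nat.choose_eq_zero_of_lt]
    omega
  | succ j ih =>
    intro b t hb
    rw [rep_succ, N_U l j ih (b :: t) hb, dl, List.length_cons, if_neg]
    · congr 1
      omega
    · have := (hb b (by simp)).1
      push_cast
      omega

end P1

open P1

theorem stmLL : StmLL := by
  intro n k l f
  have hL : ∀ a ∈ LL k l, -(l : ℤ) ≤ a ∧ a ≤ l := by
    intro a ha
    unfold LL at ha
    rw [List.mem_append, L0_eq] at ha
    rcases ha with h | h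
    · have := mem_U _ _ _ h
      constructor <;> omega
    · rw [List.mem_flatten] at h
      obtain ⟨L, hL, haL⟩ := h
      have := List.eq_of_mem_replicate hL
      rw [this, Lt_eq] at haL
      have h2 := mem_U _ _ _ haL
      push_cast at h2
      constructor <;> omega
  rw [← S_eq (LL k l) hL n f]
  apply Finset.sum_congr rfl
  intro x _
  congr 3
  have hw : ∀ a ∈ List.ofFn (fun v => hh (x v)), -(l : ℤ) ≤ a ∧ a ≤ l := by
    intro a ha
    rw [List.mem_ofFn] at ha
    obtain ⟨v, rfl⟩ := ha
    have h1 := (x v).1.2
    unfold hh
    split_ifs <;> constructor <;> omega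
  have h1 := N_U l k (N_rep l k) _ hw l
  have h2 : LL k l = U l (l : ℤ) ++ rep k l := by
    unfold LL rep
    rw [L0_eq]
  rw [h2, h1]
  simp

end Pool.Agent.R578.TS
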