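import Pool.Agent.R578.TS.Stmts

/-!
# Piece TS-2 of MP_12caf3_co: descents and sign of the sorted signed permutation
-/

namespace Pool.Agent.R578.TS

open Pool.Agent.R578.SE Finset Equiv

namespace P2

theorem dl_ofFn : ∀ (m : ℕ) (h : Fin (m + 1) → ℤ), dl (List.ofFn h) =
    (univ.filter (fun l : Fin m => h l.succ < h l.castSucc)).card := by
  intro m
  induction m with
  | zero =>
    intro h
    simp [dl]
  | succ m ih =>
    intro h
    have h1 : List.ofFn h = h 0 :: h 1 :: List.ofFn (fun i : Fin m => h i.succ.succ) := by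
      rw [List.ofFn_succ, List.ofFn_succ]
      rfl
    have h2 : List.ofFn (fun i : Fin (m + 1) => h i.succ) =
        h 1 :: List.ofFn (fun i : Fin m => h i.succ.succ) := by
      rw [List.ofFn_succ]
      rfl
    rw [h1, dl, ← h2, ih, Fin.card_filter_univ_succ]
    have e1 : ((0 : Fin (m + 1)).succ) = (1 : Fin (m + 2)) := rfl
    have e2 : ((0 : Fin (m + 1)).castSucc) = (0 : Fin (m + 2)) := rfl
    rw [e1, e2]
    simp only [Fin.castSucc_succ]
    split_ifs
    · rw [add_comm]
    · rw [zero_add]

theorem FF_lt_iff {n l : ℕ} (s : Fin n → Bool) (f : Fin n → Fin (l + 1)) (i j : Fin n) :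
    (Tuple.sort (FF s f))⁻¹ i < (Tuple.sort (FF s f))⁻¹ j ↔ FF s f i < FF s f j := by
  have h1 : StrictMono (FF s f ∘ Tuple.sort (FF s f)) :=
    (Tuple.monotone_sort _).strictMono_of_injective
      ((FF_inj s f).comp (Tuple.sort (FF s f)).injective)
  rw [← h1.lt_iff_lt]
  simp

theorem ent_sinv {n l : ℕ} (x : Fin n → Let l) (i : Fin n) :
    ent (sinv (wx x)) i = if (x i).2 = true then
      -((((Tuple.sort (FF (fun v => (x v).2) (fun v => (x v).1)))⁻¹ i : Fin n) : ℕ) + 1 : ℤ)
      else ((((Tuple.sort (FF (fun v => (x v).2) (fun v => (x v).1)))⁻¹ i : Fin n) : ℕ) + 1 : ℤ) := by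
  unfold ent sinv wx SE.val
  simp

theorem des_iff {n l : ℕ} (x : Fin n → Let l) (hx : ∀ v, (x v).2 = true → 1 ≤ ((x v).1 : ℕ))
    (i j : Fin n) (hij : i < j) :
    ent (sinv (wx x)) j < ent (sinv (wx x)) i ↔ hh (x j) < hh (x i) := by
  have hF := FF_lt_iff (fun v => (x v).2) (fun v => (x v).1)
  rw [ent_sinv, ent_sinv]
  set τ := (Tuple.sort (FF (fun v => (x v).2) (fun v => (x v).1)))⁻¹ with hτ
  have hi := hx i
  have hj := hx j
  have h1 := hF i j
  have h2 := hF j i
  unfold FF at h1 h2
  rw [Prod.Lex.toLex_lt_toLex] at h1 h2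
  simp only [SE.val, Fin.lt_def, Fin.ext_iff] at h1 h2
  rw [Fin.lt_def] at hij
  unfold hh
  rcases Bool.eq_false_or_eq_true (x i).2 with hb | hb <;>
    rcases Bool.eq_false_or_eq_true (x j).2 with hb' | hb'
  · rw [hb] at hi
    rw [hb'] at hj
    simp only [hb, hb', if_true] at h1 h2 ⊢
    omega
  · rw [hb] at hi
    simp only [hb, hb', if_true, Bool.false_eq_true, if_false]
    have := hi rfl
    omega
  · rw [hb'] at hj
    simp only [hb, hb', if_true, Bool.false_eq_true, if_false]
    have := hj rfl
    omega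
  · simp only [hb, hb', Bool.false_eq_true, if_false] at h1 h2 ⊢
    omega

theorem neg_iff {n l : ℕ} (x : Fin n → Let l) (hx : ∀ v, (x v).2 = true → 1 ≤ ((x v).1 : ℕ))
    (i : Fin n) : ent (sinv (wx x)) i < 0 ↔ hh (x i) < 0 := by
  rw [ent_sinv]
  unfold hh
  have hi := hx i
  rcases Bool.eq_false_or_eq_true (x i).2 with hb | hb
  · rw [hb] at hi
    have := hi rfl
    simp only [hb, if_true]
    omega
  · simp only [hb, Bool.false_eq_true, if_false]
    omega

theorem cz_hh {l : ℕ} (u v : Let l) (hv : v.2 = true → 1 ≤ (v.1 : ℕ)) :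
    cz (hh u) (hh v) = cc u v := by
  unfold cz cc
  have e1 : (hh u).natAbs = (u.1 : ℕ) := by unfold hh; split_ifs <;> simp
  have e2 : (hh v).natAbs = (v.1 : ℕ) := by unfold hh; split_ifs <;> simp
  have e3 : 0 ≤ hh v ↔ v.2 = false := by
    unfold hh
    rcases Bool.eq_false_or_eq_true v.2 with hb | hb
    · rw [hb] at hv
      have := hv rfl
      simp only [hb, if_true, Bool.true_eq_false, iff_false]
      omega
    · simp [hb]
  simp only [e1, e2, e3, Fin.lt_def, Fin.ext_iff]

end P2

open P2

theorem stmDes : StmDes := by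
  intro n l x hx
  rcases n with _ | m
  · simp [desB, des, dl]
  · unfold desB
    rw [des_eq]
    have h1 : List.ofFn (fun v => hh (x v)) =
        hh (x 0) :: List.ofFn (fun v : Fin m => hh (x v.succ)) := by
      rw [List.ofFn_succ]
    rw [h1, dl, ← h1, dl_ofFn, add_comm]
    congr 1
    · have h2 : (univ.filter (fun i : Fin (m + 1) => (i : ℕ) = 0 ∧ ent (sinv (wx x)) i < 0)) =
          if hh (x 0) < 0 then {0} else ∅ := by
        ext i
        rw [mem_filter, neg_iff x hx]
        split_ifs with h
        · rw [mem_singleton]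
          constructor
          · rintro ⟨-, h3, -⟩
            ext
            simpa using h3
          · rintro rfl
            exact ⟨mem_univ _, rfl, h⟩
        · simp only [mem_univ, true_and, notMem_empty, iff_false, not_and]
          intro h3
          have : i = 0 := by
            ext
            simpa using h3
          rw [this]
          exact h
      rw [h2]
      split_ifs <;> simp
    · congr 1
      ext l'
      rw [mem_filter, mem_filter, des_iff x hx _ _ (Fin.castSucc_lt_succ)]

theorem stmEp : StmEp := by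
  intro n l
  induction n with
  | zero =>
    intro x _
    simp [EE, ep]
  | succ n ih =>
    intro x hx
    have h1 := ih (fun v => x v.succ) (fun v hv => hx v.succ hv)
    have h2 : x = Fin.cons (x 0) (fun v : Fin n => x v.succ) := (Fin.cons_self_tail x).symm
    have h3 : EE x = (∏ j : Fin n, cc (x 0) (x j.succ)) * EE (fun v : Fin n => x v.succ) := by
      conv_lhs => rw [h2]
      rw [EE_cons]
    rw [h3, Fin.prod_univ_succ, List.ofFn_succ, ep, ← h1, List.map_ofFn, List.prod_ofFn]
    have h4 : ∀ j : Fin n, (cz (hh (x 0)) ∘ fun v : Fin n => hh (x v.succ)) j =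
        cc (x 0) (x j.succ) := by
      intro j
      exact cz_hh _ _ (hx j.succ)
    rw [Finset.prod_congr rfl (fun j _ => h4 j)]
    have h5 : (if hh (x 0) < 0 then (-1 : ℤ) else 1) = if (x 0).2 = true then (-1 : ℤ) else 1 := by
      have h6 := hx 0
      unfold hh
      rcases Bool.eq_false_or_eq_true (x 0).2 with hb | hb
      · rw [hb] at h6
        have := h6 rfl
        simp only [hb, if_true]
        rw [if_pos (by omega)]
      · simp only [hb, Bool.false_eq_true, if_false]
        rw [if_neg (by omega)]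
    rw [h5]
    ring

end Pool.Agent.R578.TS
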