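import Pool.Agent.R578.TS.Stmts

/-!
# Piece TS-3 of MP_12caf3_co: signed generating function of the block words
-/

namespace Pool.Agent.R578.TS

open Pool.Agent.R578.SE Finset Equiv

namespace P3

theorem S_zero (L : List ℤ) (f : List ℤ → ℤ) : S L 0 f = f [] := by
  rw [S]

theorem S_nil (n : ℕ) (f : List ℤ → ℤ) : S [] (n + 1) f = 0 := by
  rw [S]

theorem S_cons (a : ℤ) (L : List ℤ) (n : ℕ) (f : List ℤ → ℤ) :
    S (a :: L) (n + 1) f = S (a :: L) n (fun w => f (a :: w)) + S L (n + 1) f := by
  rw [S]

theorem S_congr : ∀ (L : List ℤ), L.Pairwise (· ≤ ·) ∨ True → ∀ (n : ℕ) (f g : List ℤ → ℤ),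
    (∀ w : List ℤ, w.length = n → (∀ a ∈ w, a ∈ L) →
      (L.Pairwise (· ≤ ·) → w.Pairwise (· ≤ ·)) → f w = g w) → S L n f = S L n g := by
  intro L _
  induction L with
  | nil =>
    intro n f g h
    rcases n with _ | n
    · rw [S_zero, S_zero]
      exact h [] rfl (by simp) (by simp)
    · rw [S_nil, S_nil]
  | cons a L ihL =>
    intro n
    induction n with
    | zero =>
      intro f g h
      rw [S_zero, S_zero]
      exact h [] rfl (by simp) (by simp)
    | succ n ihn =>
      intro f g h
      rw [S_cons, S_cons]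
      congr 1
      · apply ihn
        intro w h1 h2 h3
        apply h (a :: w) (by simp [h1])
        · intro b hb
          rw [List.mem_cons] at hb
          rcases hb with rfl | hb
          · simp
          · exact h2 b hb
        · intro h4
          rw [List.pairwise_cons]
          refine ⟨?_, h3 h4⟩
          intro b hb
          have hb' := h2 b hb
          rw [List.mem_cons] at hb'
          rcases hb' with rfl | hb'
          · exact le_rfl
          · exact (List.pairwise_cons.1 h4).1 b hb'
      · apply ihL (Or.inr trivial)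
        intro w h1 h2 h3
        apply h w h1 (fun b hb => List.mem_cons_of_mem _ (h2 b hb))
        intro h4
        exact h3 (List.pairwise_cons.1 h4).2

theorem S_append (L₁ L₂ : List ℤ) : ∀ (n : ℕ) (f : List ℤ → ℤ), S (L₁ ++ L₂) n f =
    ∑ p ∈ antidiagonal n, S L₁ p.1 (fun u => S L₂ p.2 (fun w => f (u ++ w))) := by
  induction L₁ with
  | nil =>
    intro n f
    rcases n with _ | n
    · simp [S_zero]
    · rw [Finset.Nat.sum_antidiagonal_succ]
      simp [S_zero, S_nil]
  | cons a L₁ ihL =>
    intro n
    induction n with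
    | zero =>
      intro f
      simp [S_zero]
    | succ n ihn =>
      intro f
      rw [List.cons_append, S_cons, ← List.cons_append, ihn, ihL,
        Finset.Nat.sum_antidiagonal_succ, Finset.Nat.sum_antidiagonal_succ]
      simp only [S_zero, List.nil_append, S_cons, Finset.sum_add_distrib, List.cons_append]
      ring

theorem S_mul (c : ℤ) : ∀ (L : List ℤ) (n : ℕ) (f : List ℤ → ℤ),
    S L n (fun w => c * f w) = c * S L n f := by
  intro L
  induction L with
  | nil =>
    intro n f
    rcases n with _ | n
    · simp [S_zero]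
    · simp [S_nil]
  | cons a L ihL =>
    intro n
    induction n with
    | zero => intro f; simp [S_zero]
    | succ n ihn =>
      intro f
      rw [S_cons, S_cons, ihn, ihL, mul_add]

theorem S_single (a : ℤ) : ∀ (n : ℕ) (f : List ℤ → ℤ), S [a] n f = f (List.replicate n a) := by
  intro n
  induction n with
  | zero => intro f; simp [S_zero]
  | succ n ih =>
    intro f
    rw [S_cons, S_nil, ih, add_zero, List.replicate_succ]

theorem S_one : ∀ (L : List ℤ) (n : ℕ), S L n (fun _ => 1) = ((L.length.multichoose n : ℕ) : ℤ) := by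
  intro L
  induction L with
  | nil =>
    intro n
    rcases n with _ | n
    · simp [S_zero]
    · simp [S_nil]
  | cons a L ihL =>
    intro n
    induction n with
    | zero => simp [S_zero]
    | succ n ihn =>
      rw [S_cons, ihn, ihL, List.length_cons, Nat.multichoose_succ_succ]
      push_cast
      ring

theorem length_Lt (l : ℕ) : (Lt l).length = 2 * l + 1 := by
  induction l with
  | zero => simp [Lt]
  | succ l ih =>
    simp only [Lt, List.length_cons, List.length_append, List.length_nil, ih]
    ring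

theorem length_L0 (l : ℕ) : (L0 l).length = l + 1 := by
  induction l with
  | zero => simp [L0]
  | succ l ih => simp [L0, ih]

theorem mem_Lt : ∀ (l : ℕ) (a : ℤ), a ∈ Lt l → a.natAbs ≤ l := by
  intro l
  induction l with
  | zero =>
    intro a ha
    simp only [Lt, List.mem_singleton] at ha
    simp [ha]
  | succ l ih =>
    intro a ha
    simp only [Lt, List.mem_cons, List.mem_append, List.not_mem_nil, or_false] at ha
    rcases ha with h | h | h
    · omega
    · have := ih a h
      omega
    · omega

theorem mem_L0 : ∀ (l : ℕ) (a : ℤ), a ∈ L0 l → 0 ≤ a ∧ a ≤ l := by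
  intro l
  induction l with
  | zero =>
    intro a ha
    simp only [L0, List.mem_singleton] at ha
    simp [ha]
  | succ l ih =>
    intro a ha
    simp only [L0, List.mem_append, List.mem_singleton] at ha
    rcases ha with h | h
    · have := ih a h
      push_cast
      constructor <;> omega
    · push_cast
      constructor <;> omega

theorem sorted_L0 (l : ℕ) : (L0 l).Pairwise (· ≤ ·) := by
  induction l with
  | zero => simp [L0]
  | succ l ih =>
    rw [L0, List.pairwise_append]
    refine ⟨ih, by simp, ?_⟩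
    intro a ha b hb
    rw [List.mem_singleton] at hb
    have := mem_L0 l a ha
    omega

/-! ### signs of words -/

theorem ep_append (v w : List ℤ) : ep (v ++ w) = ep v * eu v w := by
  induction v with
  | nil => simp [ep, eu]
  | cons a v ih =>
    rw [List.cons_append, ep, ih, ep, List.map_append, List.prod_append]
    unfold eu
    simp only [List.map_cons, List.prod_cons, List.prod_map_mul]
    ring

theorem eu_append (u v w : List ℤ) : eu u (v ++ w) = eu u v * eu (u ++ v) w := by
  unfold eu
  rw [List.map_append, List.prod_append, ep_append]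
  unfold eu
  simp only [List.map_append, List.prod_append, List.prod_map_mul]
  ring

theorem eu_nil (w : List ℤ) : eu [] w = ep w := by
  unfold eu
  simp

theorem prod_cz (b : ℤ) (p : ℤ → Bool) (hp : ∀ a, cz a b = if p a = true then -1 else 1)
    (u : List ℤ) : (u.map (fun a => cz a b)).prod = (-1) ^ (u.countP p) := by
  induction u with
  | nil => simp
  | cons a u ih =>
    rw [List.map_cons, List.prod_cons, ih, hp a, List.countP_cons]
    split_ifs with h
    · rw [pow_succ]; ring
    · rw [add_zero, one_mul]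

theorem cz_nonneg (b : ℤ) (hb : 0 ≤ b) (a : ℤ) :
    cz a b = if decide (b.natAbs < a.natAbs) = true then -1 else 1 := by
  unfold cz
  simp only [decide_eq_true_iff]
  split_ifs <;> first | rfl | omega

theorem cz_neg (l : ℕ) (a : ℤ) :
    cz a (-((l : ℤ) + 1)) = if decide (l < a.natAbs) = true then -1 else 1 := by
  unfold cz
  simp only [decide_eq_true_iff]
  split_ifs <;> first | rfl | omega

/-- sign of a constant negative word -/
def tau : ℕ → ℤ
  | 0 => 1
  | (q + 1) => (-1) ^ (q + 1) * tau q

theorem tau_two (q : ℕ) : tau (q + 2) = - tau q := by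
  rw [tau, tau]
  have : ((-1 : ℤ) ^ (q + 1 + 1)) * ((-1) ^ (q + 1)) = -1 := by
    rw [← pow_add]
    exact Odd.neg_one_pow ⟨q + 1, by ring⟩
  linear_combination tau q * this

theorem ep_replicate_nonneg (b : ℤ) (hb : 0 ≤ b) (q : ℕ) : ep (List.replicate q b) = 1 := by
  induction q with
  | zero => simp [ep]
  | succ q ih =>
    rw [List.replicate_succ, ep, ih, List.map_replicate, List.prod_replicate, if_neg (by omega)]
    have : cz b b = 1 := by
      unfold cz
      rw [if_pos (Or.inr ⟨rfl, hb⟩)]
    rw [this]
    simp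

theorem ep_replicate_neg (b : ℤ) (hb : b < 0) (q : ℕ) : ep (List.replicate q b) = tau q := by
  induction q with
  | zero => simp [ep, tau]
  | succ q ih =>
    rw [List.replicate_succ, ep, ih, List.map_replicate, List.prod_replicate, if_pos hb, tau]
    have : cz b b = -1 := by
      unfold cz
      rw [if_neg (by omega)]
    rw [this, pow_succ]
    ring

theorem eu_replicate (u : List ℤ) (b : ℤ) (q : ℕ) : eu u (List.replicate q b) =
    (u.map (fun a => cz a b)).prod ^ q * ep (List.replicate q b) := by
  unfold eu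
  rw [List.map_replicate, List.prod_replicate]

theorem ep_sorted : ∀ (w : List ℤ), w.Pairwise (· ≤ ·) → (∀ a ∈ w, 0 ≤ a) → ep w = 1 := by
  intro w
  induction w with
  | nil => intro _ _; simp [ep]
  | cons b w ih =>
    intro h1 h2
    rw [List.pairwise_cons] at h1
    have hb := h2 b (by simp)
    rw [ep, ih h1.2 (fun a ha => h2 a (by simp [ha])), if_neg (by omega)]
    have : (w.map (cz b)).prod = 1 := by
      apply List.prod_eq_one
      intro x hx
      rw [List.mem_map] at hx
      obtain ⟨c, hc, rfl⟩ := hx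
      have h3 := h1.1 c hc
      unfold cz
      rw [if_pos]
      omega
    rw [this]
    simp

/-! ### the sum over one symmetric block -/

/-- `multichoose (l+1) (r/2)` -/
def rho (l r : ℕ) : ℤ := (((l + 1).multichoose (r / 2) : ℕ) : ℤ)

/-- partial sums -/
def K (l c : ℕ) : ℤ := ∑ p ∈ antidiagonal c, tau p.1 * (-1) ^ (p.1 * p.2) * rho l p.2

theorem K_two (l c : ℕ) : K l (c + 2) = rho l (c + 2) + (-1) ^ c * rho l (c + 1) - K l c := by
  unfold K
  rw [Finset.Nat.sum_antidiagonal_succ, Finset.Nat.sum_antidiagonal_succ]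
  simp only [tau_two, add_assoc, Nat.reduceAdd]
  have h1 : ∀ p : ℕ × ℕ, -tau p.1 * (-1 : ℤ) ^ ((p.1 + 2) * p.2) * rho l p.2 =
      - (tau p.1 * (-1) ^ (p.1 * p.2) * rho l p.2) := by
    intro p
    have : ((-1 : ℤ)) ^ ((p.1 + 2) * p.2) = (-1) ^ (p.1 * p.2) := by
      rw [add_mul, pow_add, pow_mul (-1 : ℤ) 2 p.2]
      simp
    rw [this]
    ring
  simp only [h1, Finset.sum_neg_distrib]
  have h2 : tau (0 + 1) = -1 := by simp [tau]
  have h3 : tau 0 = 1 := rfl
  rw [h2, h3]
  simp only [zero_mul, pow_zero, one_mul]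
  rw [pow_succ]
  ring

theorem K_eq (l : ℕ) : ∀ c : ℕ, K l (2 * c) = rho l (2 * c) ∧ K l (2 * c + 1) = 0 := by
  intro c
  induction c with
  | zero =>
    constructor
    · simp [K, tau]
    · rw [K, Finset.Nat.sum_antidiagonal_succ]
      simp [tau, rho]
  | succ c ih =>
    have e1 : 2 * (c + 1) = 2 * c + 2 := by ring
    have e2 : 2 * (c + 1) + 1 = 2 * c + 1 + 2 := by ring
    rw [e1, K_two, ih.1]
    constructor
    · have h1 : rho l (2 * c + 1) = rho l (2 * c) := by
        unfold rho
        congr 2
        omega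
      rw [h1, Even.neg_one_pow ⟨c, by ring⟩]
      ring
    · rw [show 2 * c + 2 + 1 = 2 * c + 1 + 2 by ring, K_two, ih.2]
      have h1 : rho l (2 * c + 1 + 2) = rho l (2 * c + 1 + 1) := by
        unfold rho
        congr 2
        omega
      rw [h1, Odd.neg_one_pow ⟨c, by ring⟩]
      ring

theorem hockey (l : ℕ) : ∀ b : ℕ, ∑ p ∈ antidiagonal b, K l p.1 = rho (l + 1) b := by
  have h0 : ∀ b : ℕ, ∑ p ∈ antidiagonal b, K l p.1 = ∑ c ∈ range (b + 1), K l c := by
    intro b
    rw [Finset.Nat.sum_antidiagonal_eq_sum_range_succ (fun a _ => K l a)]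
  have key : ∀ c : ℕ, (∑ i ∈ range (2 * c + 1), K l i = rho (l + 1) (2 * c)) ∧
      (∑ i ∈ range (2 * c + 1 + 1), K l i = rho (l + 1) (2 * c + 1)) := by
    intro c
    have hr : ∀ c, rho (l + 1) (2 * c + 1) = rho (l + 1) (2 * c) := by
      intro c
      unfold rho
      congr 2
      omega
    induction c with
    | zero =>
      have h1 := (K_eq l 0)
      simp only [mul_zero, zero_add] at h1
      constructor
      · simp [h1.1, rho]
      · rw [Finset.sum_range_succ]
        simp [h1.1, h1.2, rho]
    | succ c ih =>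
      have h1 := K_eq l (c + 1)
      have e1 : 2 * (c + 1) = 2 * c + 1 + 1 := by ring
      have h2 : ∑ i ∈ range (2 * (c + 1) + 1), K l i = rho (l + 1) (2 * (c + 1)) := by
        rw [Finset.sum_range_succ, h1.1, e1, ih.2, hr]
        unfold rho
        have e2 : (2 * c) / 2 = c := by omega
        have e3 : (2 * c + 1 + 1) / 2 = c + 1 := by omega
        rw [e2, e3, Nat.multichoose_succ_succ (l + 1) c]
        push_cast
        ring
      refine ⟨h2, ?_⟩
      rw [Finset.sum_range_succ, h2, h1.2, add_zero, hr]
  intro b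
  rw [h0]
  rcases Nat.even_or_odd' b with ⟨c, hc | hc⟩
  · rw [hc]
    exact (key c).1
  · rw [hc]
    exact (key c).2

/-- number of letters of absolute value larger than `l` -/
def cp (l : ℕ) (u : List ℤ) : ℕ := u.countP (fun a => decide (l < a.natAbs))

theorem cp_zero (l : ℕ) (u : List ℤ) (hu : ∀ a ∈ u, a.natAbs ≤ l) : cp l u = 0 := by
  unfold cp
  rw [List.countP_eq_zero]
  intro a ha
  rw [decide_eq_true_iff]
  have := hu a ha
  omega

theorem cp_append (l : ℕ) (u v : List ℤ) : cp l (u ++ v) = cp l u + cp l v :=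
  List.countP_append

theorem cp_replicate (l q : ℕ) (b : ℤ) (hb : l < b.natAbs) : cp l (List.replicate q b) = q := by
  unfold cp
  rw [List.countP_replicate, if_pos (by simpa using hb)]

theorem assoc_sum (b : ℕ) (F : ℕ → ℕ → ℕ → ℤ) :
    ∑ x ∈ antidiagonal b, ∑ y ∈ antidiagonal x.2, F x.1 y.1 y.2 =
      ∑ x ∈ antidiagonal b, ∑ y ∈ antidiagonal x.1, F y.1 y.2 x.2 := by
  rw [Finset.sum_sigma', Finset.sum_sigma']
  apply Finset.sum_nbij' (fun z => ⟨(z.1.1 + z.2.1, z.2.2), (z.1.1, z.2.1)⟩)
    (fun z => ⟨(z.2.1, z.2.2 + z.1.2), (z.2.2, z.1.2)⟩)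
  · rintro ⟨⟨a, c⟩, ⟨d, e⟩⟩ h
    simp only [Finset.mem_sigma, HasAntidiagonal.mem_antidiagonal, and_true] at h ⊢
    omega
  · rintro ⟨⟨a, c⟩, ⟨d, e⟩⟩ h
    simp only [Finset.mem_sigma, HasAntidiagonal.mem_antidiagonal, and_true] at h ⊢
    omega
  · rintro ⟨⟨a, c⟩, ⟨d, e⟩⟩ h
    simp only [Finset.mem_sigma, HasAntidiagonal.mem_antidiagonal] at h
    simp only [Sigma.mk.injEq, Prod.mk.injEq, true_and, heq_eq_eq, and_true]
    omega
  · rintro ⟨⟨a, c⟩, ⟨d, e⟩⟩ h
    simp only [Finset.mem_sigma, HasAntidiagonal.mem_antidiagonal] at h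
    simp only [Sigma.mk.injEq, Prod.mk.injEq, true_and, heq_eq_eq, and_true]
    omega
  · rintro ⟨⟨a, c⟩, ⟨d, e⟩⟩ _
    rfl

theorem block : ∀ (l : ℕ) (u : List ℤ) (b : ℕ),
    S (Lt l) b (eu u) = ((-1) ^ (cp l u)) ^ b * rho l b := by
  intro l
  induction l with
  | zero =>
    intro u b
    rw [Lt, S_single, eu_replicate, ep_replicate_nonneg 0 le_rfl,
      prod_cz 0 _ (cz_nonneg 0 le_rfl)]
    have : rho 0 b = 1 := by
      unfold rho
      simp [Nat.multichoose_one]
    rw [this]
    rfl
  | succ l ih =>
    intro u b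
    set s : ℤ := (-1) ^ (cp l u) with hs
    set s' : ℤ := (-1) ^ (cp (l + 1) u) with hs'
    have hs2 : s * s = 1 := by
      rw [hs, ← pow_add]
      exact Even.neg_one_pow ⟨_, rfl⟩
    have hs2' : s' * s' = 1 := by
      rw [hs', ← pow_add]
      exact Even.neg_one_pow ⟨_, rfl⟩
    have hL : Lt (l + 1) = [-((l : ℤ) + 1)] ++ (Lt l ++ [(l : ℤ) + 1]) := rfl
    have h1 : S (Lt (l + 1)) b (eu u) = ∑ x ∈ antidiagonal b, ∑ y ∈ antidiagonal x.2,
        ((s ^ x.1 * tau x.1) * s' ^ y.2 * ((s * (-1) ^ x.1) ^ y.1 * rho l y.1)) := by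
      rw [hL, S_append]
      apply Finset.sum_congr rfl
      rintro ⟨q, m⟩ _
      simp only
      rw [S_single, S_append]
      apply Finset.sum_congr rfl
      rintro ⟨r, p⟩ _
      simp only
      have e1 : S (Lt l) r (fun v => S [(l : ℤ) + 1] p (fun w =>
          eu u (List.replicate q (-((l : ℤ) + 1)) ++ (v ++ w)))) =
          S (Lt l) r (fun v => (s ^ q * tau q * s' ^ p) *
            eu (u ++ List.replicate q (-((l : ℤ) + 1))) v) := by
        apply S_congr _ (Or.inr trivial)
        intro v _ hv _
        have hv' : cp (l + 1) v = 0 := by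
          apply cp_zero
          intro a ha
          have := mem_Lt l a (hv a ha)
          omega
        have hq : cp (l + 1) (List.replicate q (-((l : ℤ) + 1))) = 0 := by
          apply cp_zero
          intro a ha
          have := List.eq_of_mem_replicate ha
          omega
        rw [S_single, eu_append, eu_append, eu_replicate, eu_replicate,
          ep_replicate_neg _ (by omega), ep_replicate_nonneg _ (by omega),
          prod_cz _ _ (cz_neg l), prod_cz _ _ (cz_nonneg ((l : ℤ) + 1) (by omega))]
        have e2 : ((l : ℤ) + 1).natAbs = l + 1 := by omega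
        rw [e2]
        have e3 : List.countP (fun a : ℤ => decide (l + 1 < a.natAbs))
            (u ++ List.replicate q (-((l : ℤ) + 1)) ++ v) = cp (l + 1) u := by
          change cp (l + 1) _ = _
          rw [cp_append, cp_append, hv', hq]
          rfl
        rw [e3, ← hs']
        change s ^ q * tau q * (_ * (s' ^ p * 1)) = _
        ring
      rw [e1, S_mul, ih, cp_append, cp_replicate l q _ (by omega), pow_add, ← hs]
    rw [h1, assoc_sum b (fun q r p => (s ^ q * tau q) * s' ^ p * ((s * (-1) ^ q) ^ r * rho l r))]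
    have h2 : ∀ x ∈ antidiagonal b, ∑ y ∈ antidiagonal x.1,
        (s ^ y.1 * tau y.1) * s' ^ x.2 * ((s * (-1) ^ y.1) ^ y.2 * rho l y.2) =
        s' ^ b * K l x.1 := by
      rintro ⟨c, p⟩ hx
      simp only [HasAntidiagonal.mem_antidiagonal] at hx ⊢
      have h3 : ∑ y ∈ antidiagonal c,
          (s ^ y.1 * tau y.1) * s' ^ p * ((s * (-1) ^ y.1) ^ y.2 * rho l y.2) =
          (s ^ c * s' ^ p) * K l c := by
        unfold K
        rw [Finset.mul_sum]
        apply Finset.sum_congr rfl
        rintro ⟨q, r⟩ hqr
        simp only [HasAntidiagonal.mem_antidiagonal] at hqr ⊢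
        rw [← hqr, pow_add, mul_pow, ← pow_mul]
        ring
      rw [h3]
      rcases Nat.even_or_odd' c with ⟨d, hd | hd⟩
      · have e4 : s ^ c = 1 := by
          rw [hd, pow_mul, sq, hs2, one_pow]
        have e5 : s' ^ b = s' ^ p := by
          rw [← hx, hd, pow_add, pow_mul, sq, hs2', one_pow, one_mul]
        rw [e4, e5, one_mul]
      · rw [hd, (K_eq l d).2, mul_zero, mul_zero]
    rw [Finset.sum_congr rfl h2, ← Finset.mul_sum, hockey]

/-! ### all blocks -/

open PowerSeries in
/-- series of one block -/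
noncomputable def Es (l : ℕ) : PowerSeries ℤ := PowerSeries.mk (fun b => rho l b)

/-- blocks -/
def rep (j l : ℕ) : List ℤ := (List.replicate j (Lt l)).flatten

theorem blocks (l : ℕ) : ∀ (k : ℕ) (u : List ℤ) (m : ℕ), (∀ a ∈ u, a.natAbs ≤ l) →
    S (rep k l) m (eu u) = PowerSeries.coeff m ((Es l) ^ k) := by
  intro k
  induction k with
  | zero =>
    intro u m _
    have : rep 0 l = [] := by simp [rep]
    rw [this, pow_zero, PowerSeries.coeff_one]
    rcases m with _ | m
    · rw [S_zero]
      simp [eu, ep]
    · rw [S_nil]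
      simp
  | succ k ih =>
    intro u m hu
    have : rep (k + 1) l = Lt l ++ rep k l := by
      unfold rep
      rw [List.replicate_succ, List.flatten_cons]
    rw [this, S_append, pow_succ', PowerSeries.coeff_mul]
    apply Finset.sum_congr rfl
    rintro ⟨i, j⟩ _
    simp only
    have h1 : S (Lt l) i (fun v => S (rep k l) j (fun w => eu u (v ++ w))) =
        S (Lt l) i (fun v => PowerSeries.coeff j ((Es l) ^ k) * eu u v) := by
      apply S_congr _ (Or.inr trivial)
      intro v _ hv _
      have h2 : (fun w => eu u (v ++ w)) = fun w => eu u v * eu (u ++ v) w := by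
        funext w
        exact eu_append u v w
      rw [h2, S_mul, ih]
      · ring
      · intro a ha
        rw [List.mem_append] at ha
        rcases ha with h | h
        · exact hu a h
        · exact mem_Lt l a (hv a h)
    rw [h1, S_mul, block, cp_zero l u hu, pow_zero, one_pow, one_mul, mul_comm]
    unfold Es
    rw [PowerSeries.coeff_mk]

/-- `∑ multichoose m n X^n` -/
noncomputable def As (m : ℕ) : PowerSeries ℤ := PowerSeries.mk (fun n => ((m.multichoose n : ℕ) : ℤ))

/-- `∑ (-1)^n multichoose m n X^n` -/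
noncomputable def Bs (m : ℕ) : PowerSeries ℤ :=
  PowerSeries.mk (fun n => (-1) ^ n * ((m.multichoose n : ℕ) : ℤ))

theorem As_mul (m : ℕ) : As m * (1 - PowerSeries.X) ^ m = 1 := by
  induction m with
  | zero =>
    rw [pow_zero, mul_one]
    ext n
    unfold As
    rw [PowerSeries.coeff_mk, PowerSeries.coeff_one]
    rcases n with _ | n
    · simp
    · simp
  | succ m ih =>
    rw [pow_succ', ← mul_assoc]
    have : As (m + 1) * (1 - PowerSeries.X) = As m := by
      ext n
      rw [mul_sub, mul_one, map_sub]
      rcases n with _ | n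
      · simp [As]
      · rw [PowerSeries.coeff_succ_mul_X]
        unfold As
        rw [PowerSeries.coeff_mk, PowerSeries.coeff_mk, PowerSeries.coeff_mk,
          Nat.multichoose_succ_succ]
        push_cast
        ring
    rw [this, ih]

theorem Bs_mul (m : ℕ) : Bs m * (1 + PowerSeries.X) ^ m = 1 := by
  induction m with
  | zero =>
    rw [pow_zero, mul_one]
    ext n
    unfold Bs
    rw [PowerSeries.coeff_mk, PowerSeries.coeff_one]
    rcases n with _ | n
    · simp
    · simp
  | succ m ih =>
    rw [pow_succ', ← mul_assoc]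
    have : Bs (m + 1) * (1 + PowerSeries.X) = Bs m := by
      ext n
      rw [mul_add, mul_one, map_add]
      rcases n with _ | n
      · simp [Bs]
      · rw [PowerSeries.coeff_succ_mul_X]
        unfold Bs
        rw [PowerSeries.coeff_mk, PowerSeries.coeff_mk, PowerSeries.coeff_mk,
          Nat.multichoose_succ_succ]
        push_cast
        ring
    rw [this, ih]

theorem Es_mul (l : ℕ) :
    Es l * ((1 - PowerSeries.X) ^ (l + 1) * (1 + PowerSeries.X) ^ l) = 1 := by
  induction l with
  | zero =>
    rw [pow_zero, mul_one, zero_add, pow_one, mul_sub, mul_one]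
    ext n
    rw [map_sub, PowerSeries.coeff_one]
    unfold Es
    rcases n with _ | n
    · simp [rho]
    · rw [PowerSeries.coeff_succ_mul_X, PowerSeries.coeff_mk, PowerSeries.coeff_mk]
      simp [rho, Nat.multichoose_one]
  | succ l ih =>
    have h1 : Es (l + 1) * (1 - PowerSeries.X ^ 2) = Es l := by
      ext n
      rw [mul_sub, mul_one, map_sub, PowerSeries.coeff_mul_X_pow']
      unfold Es
      by_cases hn : 2 ≤ n
      · rw [if_pos hn, PowerSeries.coeff_mk, PowerSeries.coeff_mk, PowerSeries.coeff_mk]
        unfold rho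
        obtain ⟨m, hm⟩ : ∃ m, n / 2 = m + 1 := ⟨n / 2 - 1, by omega⟩
        have hm' : (n - 2) / 2 = m := by omega
        rw [hm, hm', Nat.multichoose_succ_succ (l + 1) m]
        push_cast
        ring
      · rw [if_neg hn, PowerSeries.coeff_mk, PowerSeries.coeff_mk]
        unfold rho
        have : n / 2 = 0 := by omega
        rw [this]
        simp
    have h2 : ((1 : PowerSeries ℤ) - PowerSeries.X) ^ (l + 1 + 1) * (1 + PowerSeries.X) ^ (l + 1) =
        (1 - PowerSeries.X ^ 2) * ((1 - PowerSeries.X) ^ (l + 1) * (1 + PowerSeries.X) ^ l) := by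
      rw [pow_succ (1 - PowerSeries.X) (l + 1), pow_succ (1 + PowerSeries.X) l]
      ring
    rw [h2, ← mul_assoc, h1, ih]

end P3

open P3

theorem stmCard : StmCard := by
  intro n k l
  rw [S_one]
  have : (LL k l).length = 2 * k * l + k + l + 1 := by
    unfold LL
    rw [List.length_append, length_L0, List.length_flatten, List.map_replicate,
      List.sum_replicate, length_Lt]
    simp only [smul_eq_mul]
    ring
  rw [this]

theorem stmSign : StmSign := by
  intro n k l
  have h1 : S (LL k l) n ep = PowerSeries.coeff n (As (l + 1) * (Es l) ^ k) := by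
    have h2 : LL k l = L0 l ++ P3.rep k l := rfl
    rw [h2, S_append, PowerSeries.coeff_mul]
    apply Finset.sum_congr rfl
    rintro ⟨i, j⟩ _
    simp only
    have h3 : S (L0 l) i (fun u => S (P3.rep k l) j (fun w => ep (u ++ w))) =
        S (L0 l) i (fun _ => PowerSeries.coeff j ((Es l) ^ k) * 1) := by
      apply S_congr _ (Or.inr trivial)
      intro u _ hu hs
      have h4 : (fun w => ep (u ++ w)) = fun w => ep u * eu u w := by
        funext w
        exact ep_append u w
      rw [h4, S_mul, blocks, ep_sorted u (hs (sorted_L0 l)) (fun a ha => (mem_L0 l a (hu a ha)).1)]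
      · ring
      · intro a ha
        have := mem_L0 l a (hu a ha)
        omega
    rw [h3, S_mul, S_one, length_L0, mul_comm]
    unfold As
    rw [PowerSeries.coeff_mk]
  have h5 : As (l + 1) * (Es l) ^ k = Bs (k * l) * As ((k + 1) * (l + 1)) := by
    have e1 := As_mul (l + 1)
    have e2 := Es_mul l
    have e3 := Bs_mul (k * l)
    have e4 := As_mul ((k + 1) * (l + 1))
    have e5 : (As (l + 1) * (Es l) ^ k) * ((1 - PowerSeries.X) ^ ((k + 1) * (l + 1)) *
        (1 + PowerSeries.X) ^ (k * l)) = 1 := by
      have : (As (l + 1) * (Es l) ^ k) * ((1 - PowerSeries.X) ^ ((k + 1) * (l + 1)) *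
        (1 + PowerSeries.X) ^ (k * l)) = (As (l + 1) * (1 - PowerSeries.X) ^ (l + 1)) *
        (Es l * ((1 - PowerSeries.X) ^ (l + 1) * (1 + PowerSeries.X) ^ l)) ^ k := by
        rw [mul_pow, mul_pow, ← pow_mul, ← pow_mul]
        ring
      rw [this, e1, e2]
      simp
    have e6 : ((1 - PowerSeries.X) ^ ((k + 1) * (l + 1)) *
        (1 + PowerSeries.X) ^ (k * l)) * (Bs (k * l) * As ((k + 1) * (l + 1))) = 1 := by
      linear_combination e4 + As ((k + 1) * (l + 1)) * (1 - PowerSeries.X) ^ ((k + 1) * (l + 1)) * e3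
    exact left_inv_eq_right_inv e5 e6
  rw [h1, h5, PowerSeries.coeff_mul, Finset.Nat.sum_antidiagonal_eq_sum_range_succ_mk]
  apply Finset.sum_congr rfl
  intro j _
  simp only [As, Bs, PowerSeries.coeff_mk]

end Pool.Agent.R578.TS
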