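import Pool.Agent.R578.TS.P4Ops

set_option autoImplicit false

/-!
# TS-4: the cone induction (MP_12caf3_co)
-/

namespace Pool.Agent.R578.TS

open Pool.Agent.H750R3 MvPolynomial Finset

/-- common form of `gpol` and `gpol'` -/
noncomputable def gp (R : ℕ) (c : ℕ → ℕ → ℚ) : MvPolynomial (Fin 2) ℚ :=
  ∑ i ∈ range R, ∑ m ∈ range (R - 2 * i), C (c i m) * bas i m (R - 1 - 2 * i - m)

theorem gpol_eq (n : ℕ) (c : ℕ → ℕ → ℚ) : gpol n c = gp (n + 1) c := rfl

theorem gpol'_eq (n : ℕ) (c : ℕ → ℕ → ℚ) : gpol' n c = gp n c := rfl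

/-- cone with support condition `S`; if `t` then coefficients are nonnegative -/
def Cn (t : Bool) (R : ℕ) (S : ℕ → ℕ → Prop) (P : MvPolynomial (Fin 2) ℚ) : Prop :=
  ∃ c : ℕ → ℕ → ℚ, (t = true → ∀ i m, 0 ≤ c i m) ∧ (∀ i m, c i m ≠ 0 → S i m) ∧ P = gp R c

theorem gp_add (R : ℕ) (c d : ℕ → ℕ → ℚ) : gp R (fun i m => c i m + d i m) = gp R c + gp R d := by
  unfold gp
  simp only [map_add, add_mul, Finset.sum_add_distrib]

theorem gp_smul (R : ℕ) (a : ℚ) (c : ℕ → ℕ → ℚ) : gp R (fun i m => a * c i m) = C a * gp R c := by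
  unfold gp
  simp only [map_mul, Finset.mul_sum, mul_assoc]

theorem gp_zero (R : ℕ) : gp R (fun _ _ => 0) = 0 := by
  unfold gp; simp

theorem Cn.zero (t : Bool) (R : ℕ) (S : ℕ → ℕ → Prop) : Cn t R S 0 :=
  ⟨fun _ _ => 0, fun _ _ _ => le_rfl, fun _ _ h => absurd rfl h, (gp_zero R).symm⟩

theorem Cn.add {t : Bool} {R : ℕ} {S : ℕ → ℕ → Prop} {P Q : MvPolynomial (Fin 2) ℚ}
    (hP : Cn t R S P) (hQ : Cn t R S Q) : Cn t R S (P + Q) := by
  obtain ⟨c, hc, hs, rfl⟩ := hP
  obtain ⟨d, hd, ht, rfl⟩ := hQ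
  refine ⟨fun i j => c i j + d i j, fun h i j => add_nonneg (hc h i j) (hd h i j), ?_,
    (gp_add R c d).symm⟩
  intro i j h
  by_cases h1 : c i j = 0
  · by_cases h2 : d i j = 0
    · exact absurd (by beta_reduce; rw [h1, h2, add_zero]) h
    · exact ht i j h2
  · exact hs i j h1

theorem Cn.smul {t : Bool} {R : ℕ} {S : ℕ → ℕ → Prop} {P : MvPolynomial (Fin 2) ℚ}
    (hP : Cn t R S P) {a : ℚ} (ha : 0 ≤ a) : Cn t R S (C a * P) := by
  obtain ⟨c, hc, hs, rfl⟩ := hP
  exact ⟨fun i j => a * c i j, fun h i j => mul_nonneg ha (hc h i j),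
    fun i j h => hs i j (right_ne_zero_of_mul h), (gp_smul R a c).symm⟩

theorem Cn.bas {t : Bool} {R : ℕ} {S : ℕ → ℕ → Prop} {i m q : ℕ} (a : ℚ) (ha : t = true → 0 ≤ a)
    (h : a ≠ 0 → 2 * i + m + q + 1 = R ∧ S i m) : Cn t R S (C a * bas i m q) := by
  classical
  by_cases h0 : a = 0
  · subst h0; simpa using Cn.zero t R S
  obtain ⟨h1, h2⟩ := h h0
  refine ⟨fun i' j' => if i' = i ∧ j' = m then a else 0, ?_, ?_, ?_⟩
  · intro ht i' j'
    dsimp only
    split_ifs
    · exact ha ht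
    · exact le_rfl
  · intro i' j' h3
    have : i' = i ∧ j' = m := by
      by_contra h4
      exact h3 (if_neg h4)
    rw [this.1, this.2]; exact h2
  · unfold gp
    beta_reduce
    rw [Finset.sum_eq_single i, Finset.sum_eq_single m]
    · rw [if_pos ⟨rfl, rfl⟩]
      congr 2
      omega
    · intro j' _ hj
      rw [if_neg (fun h => hj h.2)]
      simp
    · intro h3
      exfalso
      apply h3
      rw [Finset.mem_range]
      omega
    · intro i' _ hi
      apply Finset.sum_eq_zero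
      intro j' _
      rw [if_neg (fun h => hi h.1)]
      simp
    · intro h3
      exfalso
      apply h3
      rw [Finset.mem_range]
      omega

/-- sum of an element of the first cone and an element of the second cone -/
def TC (t : Bool) (n : ℕ) (S1 S2 : ℕ → ℕ → Prop) (P : MvPolynomial (Fin 2) ℚ) : Prop :=
  ∃ A B, Cn true (n + 1) S1 A ∧ Cn t n S2 B ∧ P = A + B

section TC

variable {t : Bool} {n : ℕ} {S1 S2 : ℕ → ℕ → Prop}

theorem TC.zero (t : Bool) (n : ℕ) (S1 S2 : ℕ → ℕ → Prop) : TC t n S1 S2 0 :=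
  ⟨0, 0, Cn.zero _ _ _, Cn.zero _ _ _, (add_zero 0).symm⟩

theorem TC.add {P Q : MvPolynomial (Fin 2) ℚ} (hP : TC t n S1 S2 P) (hQ : TC t n S1 S2 Q) :
    TC t n S1 S2 (P + Q) := by
  obtain ⟨A, B, hA, hB, rfl⟩ := hP
  obtain ⟨A', B', hA', hB', rfl⟩ := hQ
  exact ⟨A + A', B + B', hA.add hA', hB.add hB', by ring⟩

theorem TC.smul {P : MvPolynomial (Fin 2) ℚ} (hP : TC t n S1 S2 P) {a : ℚ} (ha : 0 ≤ a) :
    TC t n S1 S2 (C a * P) := by
  obtain ⟨A, B, hA, hB, rfl⟩ := hP
  exact ⟨C a * A, C a * B, hA.smul ha, hB.smul ha, by ring⟩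

theorem TC.basA {i m q : ℕ} (a : ℚ) (ha : 0 ≤ a) (h : a ≠ 0 → 2 * i + m + q = n ∧ S1 i m) :
    TC t n S1 S2 (C a * bas i m q) :=
  ⟨_, 0, Cn.bas a (fun _ => ha) (fun h0 => ⟨by rw [(h h0).1], (h h0).2⟩), Cn.zero _ _ _,
    (add_zero _).symm⟩

theorem TC.basB {i m q : ℕ} (a : ℚ) (ha : t = true → 0 ≤ a)
    (h : a ≠ 0 → 2 * i + m + q + 1 = n ∧ S2 i m) :
    TC t n S1 S2 (C a * bas i m q) :=
  ⟨0, _, Cn.zero _ _ _, Cn.bas a ha h, (zero_add _).symm⟩

theorem TC.sum {ι : Type} (s : Finset ι) (f : ι → MvPolynomial (Fin 2) ℚ)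
    (h : ∀ i ∈ s, TC t n S1 S2 (f i)) : TC t n S1 S2 (∑ i ∈ s, f i) := by
  classical
  induction s using Finset.induction_on with
  | empty => simpa using TC.zero t n S1 S2
  | insert a s ha ih =>
    rw [Finset.sum_insert ha]
    exact (h a (Finset.mem_insert_self a s)).add (ih fun i hi => h i (Finset.mem_insert_of_mem hi))

end TC

theorem map_gp {t : Bool} {n : ℕ} {S1 S2 : ℕ → ℕ → Prop}
    (L : MvPolynomial (Fin 2) ℚ → MvPolynomial (Fin 2) ℚ)
    (hadd : ∀ P Q, L (P + Q) = L P + L Q) (hC : ∀ c P, L (C c * P) = C c * L P)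
    (R : ℕ) (c : ℕ → ℕ → ℚ) (hc : ∀ i m, 0 ≤ c i m)
    (h : ∀ i m q, c i m ≠ 0 → 2 * i + m + q + 1 = R → TC t n S1 S2 (L (bas i m q))) :
    TC t n S1 S2 (L (gp R c)) := by
  classical
  have h0 : L 0 = 0 := by
    have := hC 0 0
    simpa using this
  have hs : ∀ {ι : Type} (s : Finset ι) (f : ι → MvPolynomial (Fin 2) ℚ),
      L (∑ i ∈ s, f i) = ∑ i ∈ s, L (f i) := by
    intro ι s f
    induction s using Finset.induction_on with
    | empty => simpa using h0
    | insert a s ha ih => rw [Finset.sum_insert ha, Finset.sum_insert ha, hadd, ih]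
  unfold gp
  rw [hs]
  apply TC.sum
  intro i hi
  rw [hs]
  apply TC.sum
  intro j hj
  rw [Finset.mem_range] at hi hj
  rw [hC]
  by_cases h0 : c i j = 0
  · rw [h0]; simpa using TC.zero t n S1 S2
  · exact (h i j _ h0 (by omega)).smul (hc i j)

/-- the two cones of level `(n, j)` -/
abbrev GC (n j : ℕ) (P : MvPolynomial (Fin 2) ℚ) : Prop := TC true n (SA n j) (SB n j) P

theorem cast_m1 {q : ℕ} (h : 1 ≤ q) : ((q - 1 : ℕ) : ℤ) = q - 1 := by omega

theorem cast_m2 {q : ℕ} (h : 2 ≤ q) : ((q - 2 : ℕ) : ℤ) = q - 2 := by omega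

theorem pos_of_mul_ne {a : ℕ} {b : ℚ} (h : (a : ℚ) * b ≠ 0) : 1 ≤ a := by
  rcases Nat.eq_zero_or_pos a with h3 | h3
  · exfalso; apply h; rw [h3]; simp
  · exact h3

theorem two_of_mul_ne {a : ℕ} (h : (a : ℚ) * (a - 1) ≠ 0) : 2 ≤ a := by
  rcases a with _ | _ | a
  · exfalso; apply h; simp
  · exfalso; apply h; simp
  · omega

theorem mul_pred_nonneg (a : ℕ) : 0 ≤ (a : ℚ) * (a - 1) := by
  rcases Nat.eq_zero_or_pos a with h3 | h3
  · rw [h3]; simp
  · have : (1 : ℚ) ≤ a := by exact_mod_cast h3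
    nlinarith

theorem VA {n j i m q : ℕ} (hj : 2 * j ≤ n) (h : n = 2 * i + m + q) (hS : SA n j i m) :
    GC (n + 1) j (VT n ((n : ℚ) - j) (bas i m q)) := by
  have h1 : ∀ e : ℚ, VT n e (bas i m q)
      = C ((i : ℚ) * (i + m) + e) * bas i m (q+1)
      + C ((i : ℚ) * (i + q + 1) - e) * bas i (m+1) q
      + C ((q : ℚ) * (2 * n + 3 - q)) * bas (i+1) m (q-1)
      + C ((q : ℚ) * (q - 1)) * bas (i+1) (m+1) (q-2)
      + C ((m : ℚ) * (m - 1)) * bas (i+1) (m-2) (q+1)
      + C ((m : ℚ) * (2 * n + 3 - m)) * bas (i+1) (m-1) q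
      + C (2 * (i : ℚ) + m + 1) * bas i m q + C (q : ℚ) * bas i (m+1) (q-1) := by
    intro e
    unfold VT
    rw [O1 n i m q h, one_sub_bas, map_add C _ e, map_sub C _ e]
    ring
  rw [h1]
  obtain ⟨hij, hs⟩ := hS
  have hsz : (n : ℤ) - j ≤ i * (i + q + 1) := by
    have : (n : ℤ) + 1 - i - m = i + q + 1 := by omega
    rw [this] at hs; exact hs
  have hsq : (n : ℚ) - j ≤ i * (i + q + 1) := by exact_mod_cast hsz
  have hjz : 2 * (j : ℤ) ≤ n := by exact_mod_cast hj
  have hjq : 2 * (j : ℚ) ≤ n := by exact_mod_cast hj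
  have hnz : (n : ℤ) = 2 * i + m + q := by exact_mod_cast h
  have hnq : (n : ℚ) = 2 * i + m + q := by exact_mod_cast h
  have hiz : (0 : ℤ) ≤ i := by positivity
  have hmz : (0 : ℤ) ≤ m := by positivity
  have hqz : (0 : ℤ) ≤ q := by positivity
  have hj0z : (0 : ℤ) ≤ j := by positivity
  have hiq : (0 : ℚ) ≤ i := by positivity
  have hmq : (0 : ℚ) ≤ m := by positivity
  have hqq : (0 : ℚ) ≤ q := by positivity
  have hj0q : (0 : ℚ) ≤ j := by positivity
  refine TC.add (TC.add (TC.add (TC.add (TC.add (TC.add (TC.add ?_ ?_) ?_) ?_) ?_) ?_) ?_) ?_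
  · apply TC.basA
    · nlinarith
    · intro ha
      refine ⟨by omega, by omega, ?_⟩
      have hi1 : 1 ≤ i := by
        rcases Nat.eq_zero_or_pos i with h3 | h3
        · exfalso; apply ha
          have h4 : (i : ℤ) = 0 := by exact_mod_cast h3
          rw [h4] at hsz
          have h5 : (n : ℤ) = 0 ∧ (j : ℤ) = 0 := by constructor <;> linarith
          have h6 : n = 0 := by exact_mod_cast h5.1
          have h7 : j = 0 := by exact_mod_cast h5.2
          rw [h3, h6, h7]; simp
        · exact h3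
      have hi1z : (1 : ℤ) ≤ i := by exact_mod_cast hi1
      push_cast
      have : (n : ℤ) + 1 + 1 - i - m = i + q + 1 + 1 := by linarith
      rw [this]; nlinarith
  · apply TC.basA
    · linarith
    · intro ha
      refine ⟨by omega, by omega, ?_⟩
      have h3 : (n : ℤ) - j ≠ i * (i + q + 1) := by
        intro h3
        apply ha
        have : (n : ℚ) - j = i * (i + q + 1) := by exact_mod_cast h3
        rw [this]; ring
      have h4 : (n : ℤ) - j < i * (i + q + 1) := lt_of_le_of_ne hsz h3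
      push_cast
      have : (n : ℤ) + 1 + 1 - i - (m + 1) = i + q + 1 := by linarith
      rw [this]; linarith
  · apply TC.basA
    · nlinarith
    · intro ha
      have hq := pos_of_mul_ne ha
      refine ⟨by omega, by omega, ?_⟩
      push_cast
      have : (n : ℤ) + 1 + 1 - (i + 1) - m = i + q + 1 := by linarith
      rw [this]; nlinarith
  · apply TC.basA
    · exact mul_pred_nonneg q
    · intro ha
      have hq := two_of_mul_ne ha
      have hq2 : (2 : ℤ) ≤ q := by exact_mod_cast hq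
      refine ⟨by omega, by omega, ?_⟩
      push_cast
      have : (n : ℤ) + 1 + 1 - (i + 1) - (m + 1) = i + q := by linarith
      rw [this]; nlinarith
  · apply TC.basA
    · exact mul_pred_nonneg m
    · intro ha
      have hm := two_of_mul_ne ha
      refine ⟨by omega, by omega, ?_⟩
      push_cast [cast_m2 hm]
      have : (n : ℤ) + 1 + 1 - (i + 1) - (m - 2) = i + q + 3 := by linarith
      rw [this]; nlinarith
  · apply TC.basA
    · nlinarith
    · intro ha
      have hm := pos_of_mul_ne ha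
      refine ⟨by omega, by omega, ?_⟩
      push_cast [cast_m1 hm]
      have : (n : ℤ) + 1 + 1 - (i + 1) - (m - 1) = i + q + 2 := by linarith
      rw [this]; nlinarith
  · apply TC.basB
    · intro _; positivity
    · intro ha
      refine ⟨by omega, by omega, ?_⟩
      push_cast
      have : (n : ℤ) + 1 - i - m = i + q + 1 := by linarith
      rw [this]; nlinarith
  · apply TC.basB
    · intro _; positivity
    · intro ha
      have hq : 1 ≤ q := by
        rcases Nat.eq_zero_or_pos q with h3 | h3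
        · exfalso; apply ha; rw [h3]; simp
        · exact h3
      have hq1 : (1 : ℤ) ≤ q := by exact_mod_cast hq
      refine ⟨by omega, by omega, ?_⟩
      push_cast
      have : (n : ℤ) + 1 - i - (m + 1) = i + q := by linarith
      rw [this]; nlinarith

theorem VB {n j i m q : ℕ} (hj : 2 * j ≤ n) (h : n = 2 * i + m + q + 1) (hS : SB n j i m) :
    GC (n + 1) j (VT n ((n : ℚ) - j) (bas i m q)) := by
  have h1 : ∀ e : ℚ, VT n e (bas i m q)
      = C (((i : ℚ) + 1) * (i + m + 1) + e) * bas i m (q+1)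
      + C (((i : ℚ) + 1) * (i + q + 1) - e) * bas i (m+1) q
      + C ((q : ℚ) * (2 * n + 3 - q)) * bas (i+1) m (q-1)
      + C ((q : ℚ) * (q - 1)) * bas (i+1) (m+1) (q-2)
      + C ((m : ℚ) * (m - 1)) * bas (i+1) (m-2) (q+1)
      + C ((m : ℚ) * (2 * n + 3 - m)) * bas (i+1) (m-1) q := by
    intro e
    unfold VT
    rw [O3 n i m q h, one_sub_bas, map_add C _ e, map_sub C _ e]
    ring
  rw [h1]
  obtain ⟨hij, hs⟩ := hS
  have hsz : (n : ℤ) - j ≤ (i + 1) * (i + q + 1) := by
    have : (n : ℤ) - i - m = i + q + 1 := by omega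
    rw [this] at hs; exact hs
  have hsq : (n : ℚ) - j ≤ (i + 1) * (i + q + 1) := by exact_mod_cast hsz
  have hjz : 2 * (j : ℤ) ≤ n := by exact_mod_cast hj
  have hjq : 2 * (j : ℚ) ≤ n := by exact_mod_cast hj
  have hnz : (n : ℤ) = 2 * i + m + q + 1 := by exact_mod_cast h
  have hnq : (n : ℚ) = 2 * i + m + q + 1 := by exact_mod_cast h
  have hiz : (0 : ℤ) ≤ i := by positivity
  have hmz : (0 : ℤ) ≤ m := by positivity
  have hqz : (0 : ℤ) ≤ q := by positivity
  have hj0z : (0 : ℤ) ≤ j := by positivity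
  have hiq : (0 : ℚ) ≤ i := by positivity
  have hmq : (0 : ℚ) ≤ m := by positivity
  have hqq : (0 : ℚ) ≤ q := by positivity
  have hj0q : (0 : ℚ) ≤ j := by positivity
  refine TC.add (TC.add (TC.add (TC.add (TC.add ?_ ?_) ?_) ?_) ?_) ?_
  · apply TC.basB
    · intro _; nlinarith
    · intro ha
      refine ⟨by omega, by omega, ?_⟩
      push_cast
      have : (n : ℤ) + 1 - i - m = i + q + 1 + 1 := by linarith
      rw [this]; nlinarith
  · apply TC.basB
    · intro _; linarith
    · intro ha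
      refine ⟨by omega, by omega, ?_⟩
      have h3 : (n : ℤ) - j ≠ (i + 1) * (i + q + 1) := by
        intro h3
        apply ha
        have : (n : ℚ) - j = (i + 1) * (i + q + 1) := by exact_mod_cast h3
        rw [this]; ring
      have h4 : (n : ℤ) - j < (i + 1) * (i + q + 1) := lt_of_le_of_ne hsz h3
      push_cast
      have : (n : ℤ) + 1 - i - (m + 1) = i + q + 1 := by linarith
      rw [this]; linarith
  · apply TC.basB
    · intro _; nlinarith
    · intro ha
      have hq := pos_of_mul_ne ha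
      refine ⟨by omega, by omega, ?_⟩
      push_cast
      have : (n : ℤ) + 1 - (i + 1) - m = i + q + 1 := by linarith
      rw [this]; nlinarith
  · apply TC.basB
    · intro _; exact mul_pred_nonneg q
    · intro ha
      have hq := two_of_mul_ne ha
      have hq2 : (2 : ℤ) ≤ q := by exact_mod_cast hq
      refine ⟨by omega, by omega, ?_⟩
      push_cast
      have : (n : ℤ) + 1 - (i + 1) - (m + 1) = i + q := by linarith
      rw [this]; nlinarith
  · apply TC.basB
    · intro _; exact mul_pred_nonneg m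
    · intro ha
      have hm := two_of_mul_ne ha
      refine ⟨by omega, by omega, ?_⟩
      push_cast [cast_m2 hm]
      have : (n : ℤ) + 1 - (i + 1) - (m - 2) = i + q + 3 := by linarith
      rw [this]; nlinarith
  · apply TC.basB
    · intro _; nlinarith
    · intro ha
      have hm := pos_of_mul_ne ha
      refine ⟨by omega, by omega, ?_⟩
      push_cast [cast_m1 hm]
      have : (n : ℤ) + 1 - (i + 1) - (m - 1) = i + q + 2 := by linarith
      rw [this]; nlinarith


/-- cones of the K-step -/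
abbrev KC (n j : ℕ) (P : MvPolynomial (Fin 2) ℚ) : Prop :=
  TC false n (SA n j) (fun _ _ => True) P

theorem KA {j n i m q : ℕ} (hn : n = 2 * j + 1) (h : n = 2 * i + m + q) (hS : SA n j i m) :
    KC (n + 1) (j + 1) (TT n (j : ℚ) (bas i m q)) := by
  have h1 : ∀ e : ℚ, TT n e (bas i m q)
      = C (((i : ℚ) + 1) * (i + m + 1) + e) * bas i m (q+1)
      + C (((i : ℚ) + 1) * (i + q) - e) * bas i (m+1) q
      + C ((q : ℚ) * (2 * n + 3 - q)) * bas (i+1) m (q-1)
      + C ((q : ℚ) * (q - 1)) * bas (i+1) (m+1) (q-2)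
      + C ((m : ℚ) * (m - 1)) * bas (i+1) (m-2) (q+1)
      + C ((m : ℚ) * (2 * n + 3 - m)) * bas (i+1) (m-1) q
      + (C (-(2 * (i : ℚ) + m + 1)) * bas i m q + C (-(q : ℚ)) * bas i (m+1) (q-1)) := by
    intro e
    unfold TT
    rw [O2 n i m q h, one_sub_bas, map_add C _ e, map_sub C _ e]
    ring
  rw [h1]
  obtain ⟨hij, hs⟩ := hS
  have hsz : (n : ℤ) - j ≤ i * (i + q + 1) := by
    have : (n : ℤ) + 1 - i - m = i + q + 1 := by omega
    rw [this] at hs; exact hs
  have hsq : (n : ℚ) - j ≤ i * (i + q + 1) := by exact_mod_cast hsz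
  have hjz : (n : ℤ) = 2 * j + 1 := by exact_mod_cast hn
  have hjq : (n : ℚ) = 2 * j + 1 := by exact_mod_cast hn
  have hnz : (n : ℤ) = 2 * i + m + q := by exact_mod_cast h
  have hnq : (n : ℚ) = 2 * i + m + q := by exact_mod_cast h
  have hiz : (0 : ℤ) ≤ i := by positivity
  have hmz : (0 : ℤ) ≤ m := by positivity
  have hqz : (0 : ℤ) ≤ q := by positivity
  have hj0z : (0 : ℤ) ≤ j := by positivity
  have hiq : (0 : ℚ) ≤ i := by positivity
  have hmq : (0 : ℚ) ≤ m := by positivity
  have hqq : (0 : ℚ) ≤ q := by positivity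
  have hj0q : (0 : ℚ) ≤ j := by positivity
  refine TC.add (TC.add (TC.add (TC.add (TC.add (TC.add ?_ ?_) ?_) ?_) ?_) ?_) (TC.add ?_ ?_)
  · apply TC.basA
    · positivity
    · intro ha
      refine ⟨by omega, by omega, ?_⟩
      push_cast
      have : (n : ℤ) + 1 + 1 - i - m = i + q + 1 + 1 := by linarith
      rw [this]; nlinarith
  · apply TC.basA
    · nlinarith
    · intro ha
      refine ⟨by omega, by omega, ?_⟩
      push_cast
      have : (n : ℤ) + 1 + 1 - i - (m + 1) = i + q + 1 := by linarith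
      rw [this]; linarith
  · apply TC.basA
    · nlinarith
    · intro ha
      have hq := pos_of_mul_ne ha
      refine ⟨by omega, by omega, ?_⟩
      push_cast
      have : (n : ℤ) + 1 + 1 - (i + 1) - m = i + q + 1 := by linarith
      rw [this]; nlinarith
  · apply TC.basA
    · exact mul_pred_nonneg q
    · intro ha
      have hq := two_of_mul_ne ha
      have hq2 : (2 : ℤ) ≤ q := by exact_mod_cast hq
      refine ⟨by omega, by omega, ?_⟩
      push_cast
      have : (n : ℤ) + 1 + 1 - (i + 1) - (m + 1) = i + q := by linarith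
      rw [this]; nlinarith
  · apply TC.basA
    · exact mul_pred_nonneg m
    · intro ha
      have hm := two_of_mul_ne ha
      refine ⟨by omega, by omega, ?_⟩
      push_cast [cast_m2 hm]
      have : (n : ℤ) + 1 + 1 - (i + 1) - (m - 2) = i + q + 3 := by linarith
      rw [this]; nlinarith
  · apply TC.basA
    · nlinarith
    · intro ha
      have hm := pos_of_mul_ne ha
      refine ⟨by omega, by omega, ?_⟩
      push_cast [cast_m1 hm]
      have : (n : ℤ) + 1 + 1 - (i + 1) - (m - 1) = i + q + 2 := by linarith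
      rw [this]; nlinarith
  · apply TC.basB
    · intro h; exact absurd h (by simp)
    · intro ha
      exact ⟨by omega, trivial⟩
  · apply TC.basB
    · intro h; exact absurd h (by simp)
    · intro ha
      have hq : 1 ≤ q := by
        rcases Nat.eq_zero_or_pos q with h3 | h3
        · exfalso; apply ha; rw [h3]; simp
        · exact h3
      exact ⟨by omega, trivial⟩

theorem KB {j n i m q : ℕ} (hn : n = 2 * j + 1) (h : n = 2 * i + m + q + 1) (hS : SB n j i m) :
    KC (n + 1) (j + 1) (TT n (j : ℚ) (bas i m q)) := by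
  have h1 : ∀ e : ℚ, TT n e (bas i m q)
      = C (2 * (2 * (i : ℚ) + m + 2)) * bas (i+1) m q
      + C (2 * (q : ℚ)) * bas (i+1) (m+1) (q-1)
      + (C ((i : ℚ) * (i + m) + e) * bas i m (q+1)
      + C ((i : ℚ) * (i + q + 2) - e) * bas i (m+1) q
      + C ((q : ℚ) * (2 * n + 3 - q)) * bas (i+1) m (q-1)
      + C ((q : ℚ) * (q - 1)) * bas (i+1) (m+1) (q-2)
      + C ((m : ℚ) * (m - 1)) * bas (i+1) (m-2) (q+1)
      + C ((m : ℚ) * (2 * n + 3 - m)) * bas (i+1) (m-1) q) := by
    intro e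
    unfold TT
    rw [O4 n i m q h, one_sub_bas, map_add C _ e, map_sub C _ e]
    ring
  rw [h1]
  obtain ⟨hij, hs⟩ := hS
  have hsz : (n : ℤ) - j ≤ (i + 1) * (i + q + 1) := by
    have : (n : ℤ) - i - m = i + q + 1 := by omega
    rw [this] at hs; exact hs
  have hjz : (n : ℤ) = 2 * j + 1 := by exact_mod_cast hn
  have hnz : (n : ℤ) = 2 * i + m + q + 1 := by exact_mod_cast h
  have hiz : (0 : ℤ) ≤ i := by positivity
  have hmz : (0 : ℤ) ≤ m := by positivity
  have hqz : (0 : ℤ) ≤ q := by positivity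
  have hj0z : (0 : ℤ) ≤ j := by positivity
  have hf : (false = true) → ∀ a : ℚ, 0 ≤ a := fun h => absurd h (by simp)
  refine TC.add (TC.add ?_ ?_) (TC.add (TC.add (TC.add (TC.add (TC.add ?_ ?_) ?_) ?_) ?_) ?_)
  · apply TC.basA
    · positivity
    · intro ha
      refine ⟨by omega, by omega, ?_⟩
      push_cast
      have : (n : ℤ) + 1 + 1 - (i + 1) - m = i + q + 1 + 1 := by linarith
      rw [this]; nlinarith
  · apply TC.basA
    · positivity
    · intro ha
      have hq : 1 ≤ q := by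
        rcases Nat.eq_zero_or_pos q with h3 | h3
        · exfalso; apply ha; rw [h3]; simp
        · exact h3
      refine ⟨by omega, by omega, ?_⟩
      push_cast
      have : (n : ℤ) + 1 + 1 - (i + 1) - (m + 1) = i + q + 1 := by linarith
      rw [this]; nlinarith
  · exact TC.basB _ (fun h => hf h _) fun ha => ⟨by omega, trivial⟩
  · exact TC.basB _ (fun h => hf h _) fun ha => ⟨by omega, trivial⟩
  · refine TC.basB _ (fun h => hf h _) fun ha => ⟨?_, trivial⟩
    have := pos_of_mul_ne ha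
    omega
  · refine TC.basB _ (fun h => hf h _) fun ha => ⟨?_, trivial⟩
    have := two_of_mul_ne ha
    omega
  · refine TC.basB _ (fun h => hf h _) fun ha => ⟨?_, trivial⟩
    have := two_of_mul_ne ha
    omega
  · refine TC.basB _ (fun h => hf h _) fun ha => ⟨?_, trivial⟩
    have := pos_of_mul_ne ha
    omega

/-! ## reflection -/

theorem refl_gpA (hA : StmReflA) (n : ℕ) (c : ℕ → ℕ → ℚ) (x y : ℚ) :
    Phi n n (-1 - x) (-1 - y) (gp (n + 1) c) = Phi n n x y (gp (n + 1) c) := by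
  unfold gp
  simp only [map_sum]
  refine Finset.sum_congr rfl fun i hi => Finset.sum_congr rfl fun m hm => ?_
  rw [Finset.mem_range] at hi hm
  rw [← smul_eq_C_mul, map_smul, map_smul, hA n i m _ x y (by omega)]

theorem refl_gpB (hB : StmReflB) (n : ℕ) (c : ℕ → ℕ → ℚ) (x y : ℚ) :
    Phi n n (-1 - x) (-1 - y) (gp n c) = Phi n n x y (X 0 * X 1 * gp n c) := by
  have h1 : X 0 * X 1 * gp n c = ∑ i ∈ range n, ∑ m ∈ range (n - 2 * i),
      C (c i m) * bas (i + 1) m (n - 1 - 2 * i - m) := by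
    unfold gp
    rw [Finset.mul_sum]
    refine Finset.sum_congr rfl fun i _ => ?_
    rw [Finset.mul_sum]
    refine Finset.sum_congr rfl fun m _ => ?_
    unfold bas
    ring
  rw [h1]
  unfold gp
  simp only [map_sum]
  refine Finset.sum_congr rfl fun i hi => Finset.sum_congr rfl fun m hm => ?_
  rw [Finset.mem_range] at hi hm
  rw [← smul_eq_C_mul, ← smul_eq_C_mul, map_smul, map_smul, hB n i m _ x y (by omega)]

theorem degreeOf_gp (v : Fin 2) (n : ℕ) (c : ℕ → ℕ → ℚ) : degreeOf v (gp (n + 1) c) ≤ n := by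
  unfold gp
  refine (degreeOf_sum_le _ _ _).trans (Finset.sup_le fun i hi => ?_)
  refine (degreeOf_sum_le _ _ _).trans (Finset.sup_le fun j hj => ?_)
  rw [Finset.mem_range] at hi hj
  refine (degreeOf_C_mul_le _ _ _).trans ((degreeOf_bas v _ _ _).trans ?_)
  omega

theorem one_sub_ne : (1 - X 0 * X 1 : MvPolynomial (Fin 2) ℚ) ≠ 0 := by
  intro h
  have h2 := congrArg constantCoeff h
  simp at h2

theorem degreeOf_one_sub (v : Fin 2) : degreeOf v (1 - X 0 * X 1 : MvPolynomial (Fin 2) ℚ) ≤ 1 := by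
  have h : (1 - X 0 * X 1 : MvPolynomial (Fin 2) ℚ) = 1 + C (-1) * (X 0 * X 1) := by
    simp; ring
  rw [h]
  have hp : degreeOf v (X 0 * X 1 : MvPolynomial (Fin 2) ℚ) ≤ 1 := by
    refine (degreeOf_mul_le _ _ _).trans ?_
    rw [degreeOf_X, degreeOf_X]
    fin_cases v <;> simp
  refine (degreeOf_add_le _ _ _).trans (max_le ?_ ((degreeOf_C_mul_le _ _ _).trans hp))
  simp

/-- both cones at level `(n, j)` -/
def Good (n j : ℕ) : Prop := ∃ A B : MvPolynomial (Fin 2) ℚ,
  Cn true (n + 1) (SA n j) A ∧ Cn true n (SB n j) B ∧ (n = 2 * j → B = 0) ∧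
    ∀ x y : ℚ, Phi n n x y (A + B) = Qf n j x y

theorem good (hA : StmReflA) (hB : StmReflB) (hV : StmQV) (hK : StmQK) (hR : StmQrefl) :
    ∀ n j : ℕ, 2 * j ≤ n → Good n j := by
  intro n
  induction n with
  | zero =>
    intro j hj
    have h0 : j = 0 := by omega
    subst h0
    refine ⟨C 1 * bas 0 0 0, 0, Cn.bas 1 (fun _ => zero_le_one) fun _ => ⟨by norm_num, ?_⟩,
      Cn.zero _ _ _, fun _ => rfl, fun x y => ?_⟩
    · constructor <;> norm_num
    · have h1 : (C 1 * bas 0 0 0 + 0 : MvPolynomial (Fin 2) ℚ) = monomial 0 1 := by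
        unfold bas
        simp
      rw [h1, Phi_monomial]
      simp [Bn, Qf, mc]
  | succ n ih =>
    intro j hj
    by_cases h : 2 * j ≤ n
    · obtain ⟨A, B, ⟨c, hc, hcS, rfl⟩, ⟨d, hd, hdS, rfl⟩, -, hP⟩ := ih j h
      have hstep : GC (n + 1) j (VT n ((n : ℚ) - j) (gp (n + 1) c + gp n d)) := by
        rw [VT_add]
        refine TC.add (map_gp _ (VT_add n _) (VT_C_mul n _) _ c (hc rfl) fun i m q h1 h2 => ?_)
          (map_gp _ (VT_add n _) (VT_C_mul n _) _ d (hd rfl) fun i m q h1 h2 => ?_)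
        · exact VA h (by omega) (hcS i m h1)
        · exact VB h (by omega) (hdS i m h1)
      have hjq : 2 * (j : ℚ) ≤ n := by exact_mod_cast h
      have hj0q : (0 : ℚ) ≤ j := by positivity
      have hpos : (0 : ℚ) < (n : ℚ) + 1 - j := by linarith
      obtain ⟨A2, B2, hA2, hB2, he⟩ := hstep.smul (a := 1 / ((n : ℚ) + 1 - j)) (by positivity)
      refine ⟨A2, B2, hA2, hB2, fun h => by omega, fun x y => ?_⟩
      rw [← he, ← smul_eq_C_mul, map_smul, Phi_VT, hP, smul_eq_mul, ← hV n j x y (by omega)]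
      field_simp
    · obtain ⟨j', rfl⟩ : ∃ j', j = j' + 1 := ⟨j - 1, by omega⟩
      have hn : n = 2 * j' + 1 := by omega
      obtain ⟨A, B, ⟨c, hc, hcS, rfl⟩, ⟨d, hd, hdS, rfl⟩, -, hP⟩ := ih j' (by omega)
      have hstep : KC (n + 1) (j' + 1) (TT n (j' : ℚ) (gp (n + 1) c + gp n d)) := by
        rw [TT_add]
        refine TC.add (map_gp _ (TT_add n _) (TT_C_mul n _) _ c (hc rfl) fun i m q h1 h2 => ?_)
          (map_gp _ (TT_add n _) (TT_C_mul n _) _ d (hd rfl) fun i m q h1 h2 => ?_)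
        · exact KA hn (by omega) (hcS i m h1)
        · exact KB hn (by omega) (hdS i m h1)
      have hpos : (0 : ℚ) < (j' : ℚ) + 1 := by positivity
      obtain ⟨A2, B2, hA2, hB2, he⟩ := hstep.smul (a := 1 / ((j' : ℚ) + 1)) (by positivity)
      have hQ : ∀ x y : ℚ, Phi (n + 1) (n + 1) x y (A2 + B2) = Qf (n + 1) (j' + 1) x y := by
        intro x y
        have h1 := hK j' x y
        have h2 : 2 * j' + 2 = n + 1 := by omega
        rw [h2, ← hn] at h1
        rw [← he, ← smul_eq_C_mul, map_smul, Phi_TT, hP, smul_eq_mul, ← h1]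
        field_simp
      have hB0 : B2 = 0 := by
        obtain ⟨c2, hc2, -, rfl⟩ := hA2
        obtain ⟨d2, -, -, rfl⟩ := hB2
        have h3 : (1 - X 0 * X 1) * gp (n + 1) d2 = 0 := by
          apply eq_zero_of_Phi (n + 1)
          · intro v
            refine (degreeOf_mul_le _ _ _).trans ?_
            have h4 := degreeOf_one_sub v
            have h5 := degreeOf_gp v n d2
            omega
          · intro x y
            have h6 := hQ (-1 - (x : ℚ)) (-1 - (y : ℚ))
            rw [map_add, refl_gpA hA, refl_gpB hB, hR _ _ _ _ (by omega),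
              show n + 1 - (j' + 1) = j' + 1 by omega, ← hQ, map_add] at h6
            rw [sub_mul, one_mul, map_sub]
            linarith
        rcases mul_eq_zero.1 h3 with h4 | h4
        · exact absurd h4 one_sub_ne
        · exact h4
      refine ⟨A2, 0, hA2, Cn.zero _ _ _, fun _ => rfl, fun x y => ?_⟩
      rw [hB0] at hQ
      exact hQ x y

theorem stmAB (hA : StmReflA) (hB : StmReflB) (hV : StmQV) (hK : StmQK) (hR : StmQrefl) :
    StmAB := by
  intro n j hj
  obtain ⟨A, B, ⟨a, ha, haS, rfl⟩, ⟨b, hb, hbS, rfl⟩, h0, hP⟩ := good hA hB hV hK hR n j hj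
  exact ⟨a, b, ha rfl, hb rfl, haS, hbS, h0, hP⟩

end Pool.Agent.R578.TS
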