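import Pool.Agent.R578.TS.Stmts
import Pool.Agent.H750R3.Final

set_option autoImplicit false

/-!
# TS-4: operator identities (MP_12caf3_co)
-/

namespace Pool.Agent.R578.TS

open Pool.Agent.H750R3 MvPolynomial Finset

/-! ## operators -/

/-- `D0 + (1 - X 0)` -/
noncomputable def E0 (n : ℕ) (P : MvPolynomial (Fin 2) ℚ) : MvPolynomial (Fin 2) ℚ :=
  D0 n P + (1 - X 0) * P

/-- `D1 + (1 - X 1)` -/
noncomputable def E1 (n : ℕ) (P : MvPolynomial (Fin 2) ℚ) : MvPolynomial (Fin 2) ℚ :=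
  D1 n P + (1 - X 1) * P

/-- the V-step operator -/
noncomputable def VT (n : ℕ) (e : ℚ) (P : MvPolynomial (Fin 2) ℚ) : MvPolynomial (Fin 2) ℚ :=
  E0 n (E1 n P) + C e * ((1 - X 0) * ((1 - X 1) * P))

theorem VT_add (n : ℕ) (e : ℚ) (P Q : MvPolynomial (Fin 2) ℚ) :
    VT n e (P + Q) = VT n e P + VT n e Q := by
  have h : E1 n (P + Q) = E1 n P + E1 n Q := by unfold E1; rw [D1_add]; ring
  have h2 : ∀ A B, E0 n (A + B) = E0 n A + E0 n B := by intro A B; unfold E0; rw [D0_add]; ring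
  unfold VT; rw [h, h2]; ring

theorem VT_C_mul (n : ℕ) (e c : ℚ) (P : MvPolynomial (Fin 2) ℚ) :
    VT n e (C c * P) = C c * VT n e P := by
  have h : E1 n (C c * P) = C c * E1 n P := by unfold E1; rw [D1_C_mul]; ring
  have h2 : ∀ A, E0 n (C c * A) = C c * E0 n A := by intro A; unfold E0; rw [D0_C_mul]; ring
  unfold VT; rw [h, h2]; ring

theorem Phi_E0 (n1 n2 : ℕ) (x y : ℚ) (P : MvPolynomial (Fin 2) ℚ) :
    Phi (n1+1) n2 x y (E0 n1 P) = (x + 1) * Phi n1 n2 x y P := by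
  unfold E0; rw [map_add, Phi_D0, Phi_one_sub_0]; ring

theorem Phi_E1 (n1 n2 : ℕ) (x y : ℚ) (P : MvPolynomial (Fin 2) ℚ) :
    Phi n1 (n2+1) x y (E1 n2 P) = (y + 1) * Phi n1 n2 x y P := by
  unfold E1; rw [map_add, Phi_D1, Phi_one_sub_1]; ring

theorem Phi_VT (n : ℕ) (e x y : ℚ) (P : MvPolynomial (Fin 2) ℚ) :
    Phi (n+1) (n+1) x y (VT n e P) = ((x + 1) * (y + 1) + e) * Phi n n x y P := by
  unfold VT
  rw [map_add, Phi_E0, Phi_E1, ← smul_eq_C_mul, map_smul, Phi_one_sub_0, Phi_one_sub_1, smul_eq_mul]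
  ring

theorem D1_bas (n i j m : ℕ) : D1 n (bas i j m) = (1 - X 1) * ((X 0 * X 1) ^ i * (
        (i : MvPolynomial (Fin 2) ℚ) * (X 0 + X 1) ^ j * (1 + X 0 * X 1) ^ m
        + (j : MvPolynomial (Fin 2) ℚ) * X 1 * (X 0 + X 1) ^ (j-1) * (1 + X 0 * X 1) ^ m
        + (m : MvPolynomial (Fin 2) ℚ) * (X 0 * X 1) * (X 0 + X 1) ^ j * (1 + X 0 * X 1) ^ (m-1)))
        + ((n : MvPolynomial (Fin 2) ℚ) + 1) * X 1 * ((X 0 * X 1) ^ i * (X 0 + X 1) ^ j * (1 + X 0 * X 1) ^ m) := by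
  unfold D1 bas
  rw [Derivation.leibniz, Derivation.leibniz, pd_s1, pd_w1]
  simp only [smul_eq_mul]
  have := theta_p1 i
  linear_combination ((1 - X 1) * (1 + X 0 * X 1) ^ m * (X 0 + X 1) ^ j) * this

set_option maxHeartbeats 8000000 in

theorem O1 (n i j m : ℕ) (h : n = 2 * i + j + m) :
    E0 n (E1 n (bas i j m)) = C ((i : ℚ) * (i + j)) * bas i j (m+1)
      + C ((i : ℚ) * (i + m + 1)) * bas i (j+1) m
      + C ((m : ℚ) * (2 * n + 3 - m)) * bas (i+1) j (m-1)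
      + C ((m : ℚ) * (m - 1)) * bas (i+1) (j+1) (m-2)
      + C ((j : ℚ) * (j - 1)) * bas (i+1) (j-2) (m+1)
      + C ((j : ℚ) * (2 * n + 3 - j)) * bas (i+1) (j-1) m
      + C (2 * (i : ℚ) + j + 1) * bas i j m + C (m : ℚ) * bas i (j+1) (m-1) := by
  have hn : (n : MvPolynomial (Fin 2) ℚ) = 2 * i + j + m := by
    rw [h]; push_cast; rfl
  unfold E0 E1
  rw [D1_bas n i j m]
  unfold D0
  simp only [map_add, map_sub, Derivation.leibniz, Derivation.map_one_eq_zero, pd_s0, pd_w0,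
    pderiv_X_self, pderiv_X_of_ne (show (1 : Fin 2) ≠ 0 by simp), smul_eq_mul, Derivation.map_natCast]
  have key := theta_p0 i
  unfold bas
  simp only [map_mul, map_add, map_sub, map_natCast, map_one, map_ofNat, Derivation.leibniz, pd_s0, pd_w0, smul_eq_mul]
  rw [hn]
  generalize (pderiv 0) ((X 0 * X 1 : MvPolynomial (Fin 2) ℚ) ^ i) = p at key ⊢
  clear h hn
  have key2 := congrArg (fun z => ((1 - X 0) * ((1 - X 1) *
        ((i : MvPolynomial (Fin 2) ℚ) * (X 0 + X 1) ^ j * (1 + X 0 * X 1) ^ m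
        + (j : MvPolynomial (Fin 2) ℚ) * X 1 * (X 0 + X 1) ^ (j-1) * (1 + X 0 * X 1) ^ m
        + (m : MvPolynomial (Fin 2) ℚ) * (X 0 * X 1) * (X 0 + X 1) ^ j * (1 + X 0 * X 1) ^ (m-1))
        + (2 * i + j + m + 1 : MvPolynomial (Fin 2) ℚ) * X 1 * ((X 0 + X 1) ^ j * (1 + X 0 * X 1) ^ m)
        + (1 - X 1) * ((X 0 + X 1) ^ j * (1 + X 0 * X 1) ^ m))) * z) key
  clear key
  rcases j with _ | _ | j <;> rcases m with _ | _ | m <;>
    simp only [Nat.cast_zero, pow_zero, Nat.cast_add, Nat.cast_one, Nat.add_sub_cancel, zero_add, pow_one,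
      show ∀ a : ℕ, a + 1 + 1 - 2 = a from fun a => by omega, Nat.sub_self, Nat.zero_sub,
      show (1 : ℕ) - 2 = 0 by rfl] at key2 ⊢ <;>
    linear_combination key2


set_option maxHeartbeats 8000000 in
theorem O3 (n i j m : ℕ) (h : n = 2 * i + j + m + 1) :
    E0 n (E1 n (bas i j m)) = C (((i : ℚ) + 1) * (i + j + 1)) * bas i j (m+1)
      + C (((i : ℚ) + 1) * (i + m + 1)) * bas i (j+1) m
      + C ((m : ℚ) * (2 * n + 3 - m)) * bas (i+1) j (m-1)
      + C ((m : ℚ) * (m - 1)) * bas (i+1) (j+1) (m-2)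
      + C ((j : ℚ) * (j - 1)) * bas (i+1) (j-2) (m+1)
      + C ((j : ℚ) * (2 * n + 3 - j)) * bas (i+1) (j-1) m := by
  have hn : (n : MvPolynomial (Fin 2) ℚ) = 2 * i + j + m + 1 := by
    rw [h]; push_cast; rfl
  unfold E0 E1
  rw [D1_bas n i j m]
  unfold D0
  simp only [map_add, map_sub, Derivation.leibniz, Derivation.map_one_eq_zero, pd_s0, pd_w0,
    pderiv_X_self, pderiv_X_of_ne (show (1 : Fin 2) ≠ 0 by simp), smul_eq_mul, Derivation.map_natCast]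
  have key := theta_p0 i
  unfold bas
  simp only [map_mul, map_add, map_sub, map_natCast, map_one, map_ofNat, Derivation.leibniz, pd_s0, pd_w0, smul_eq_mul]
  rw [hn]
  generalize (pderiv 0) ((X 0 * X 1 : MvPolynomial (Fin 2) ℚ) ^ i) = p at key ⊢
  clear h hn
  have key2 := congrArg (fun z => ((1 - X 0) * ((1 - X 1) *
        ((i : MvPolynomial (Fin 2) ℚ) * (X 0 + X 1) ^ j * (1 + X 0 * X 1) ^ m
        + (j : MvPolynomial (Fin 2) ℚ) * X 1 * (X 0 + X 1) ^ (j-1) * (1 + X 0 * X 1) ^ m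
        + (m : MvPolynomial (Fin 2) ℚ) * (X 0 * X 1) * (X 0 + X 1) ^ j * (1 + X 0 * X 1) ^ (m-1))
        + (2 * i + j + m + 2 : MvPolynomial (Fin 2) ℚ) * X 1 * ((X 0 + X 1) ^ j * (1 + X 0 * X 1) ^ m)
        + (1 - X 1) * ((X 0 + X 1) ^ j * (1 + X 0 * X 1) ^ m))) * z) key
  clear key
  rcases j with _ | _ | j <;> rcases m with _ | _ | m <;>
    simp only [Nat.cast_zero, pow_zero, Nat.cast_add, Nat.cast_one, Nat.add_sub_cancel, zero_add, pow_one,
      show ∀ a : ℕ, a + 1 + 1 - 2 = a from fun a => by omega, Nat.sub_self, Nat.zero_sub,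
      show (1 : ℕ) - 2 = 0 by rfl] at key2 ⊢ <;>
    linear_combination key2

set_option maxHeartbeats 8000000 in
theorem O2 (n i j m : ℕ) (h : n = 2 * i + j + m) :
    D0 n (D1 n (bas i j m)) = C (((i : ℚ) + 1) * (i + j + 1)) * bas i j (m+1)
      + C (((i : ℚ) + 1) * (i + m)) * bas i (j+1) m
      + C ((m : ℚ) * (2 * n + 3 - m)) * bas (i+1) j (m-1)
      + C ((m : ℚ) * (m - 1)) * bas (i+1) (j+1) (m-2)
      + C ((j : ℚ) * (j - 1)) * bas (i+1) (j-2) (m+1)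
      + C ((j : ℚ) * (2 * n + 3 - j)) * bas (i+1) (j-1) m
      + (C (-(2 * (i : ℚ) + j + 1)) * bas i j m + C (-(m : ℚ)) * bas i (j+1) (m-1)) := by
  have hn : (n : MvPolynomial (Fin 2) ℚ) = 2 * i + j + m := by
    rw [h]; push_cast; rfl
  rw [D1_bas n i j m]
  unfold D0
  simp only [map_add, map_sub, Derivation.leibniz, Derivation.map_one_eq_zero, pd_s0, pd_w0,
    pderiv_X_self, pderiv_X_of_ne (show (1 : Fin 2) ≠ 0 by simp), smul_eq_mul, Derivation.map_natCast]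
  have key := theta_p0 i
  unfold bas
  simp only [map_mul, map_neg, map_add, map_sub, map_natCast, map_one, map_ofNat, Derivation.leibniz, pd_s0, pd_w0, smul_eq_mul]
  rw [hn]
  generalize (pderiv 0) ((X 0 * X 1 : MvPolynomial (Fin 2) ℚ) ^ i) = p at key ⊢
  clear h hn
  have key2 := congrArg (fun z => ((1 - X 0) * ((1 - X 1) *
        ((i : MvPolynomial (Fin 2) ℚ) * (X 0 + X 1) ^ j * (1 + X 0 * X 1) ^ m
        + (j : MvPolynomial (Fin 2) ℚ) * X 1 * (X 0 + X 1) ^ (j-1) * (1 + X 0 * X 1) ^ m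
        + (m : MvPolynomial (Fin 2) ℚ) * (X 0 * X 1) * (X 0 + X 1) ^ j * (1 + X 0 * X 1) ^ (m-1))
        + (2 * i + j + m + 1 : MvPolynomial (Fin 2) ℚ) * X 1 * ((X 0 + X 1) ^ j * (1 + X 0 * X 1) ^ m))) * z) key
  clear key
  rcases j with _ | _ | j <;> rcases m with _ | _ | m <;>
    simp only [Nat.cast_zero, pow_zero, Nat.cast_add, Nat.cast_one, Nat.add_sub_cancel, zero_add, pow_one,
      show ∀ a : ℕ, a + 1 + 1 - 2 = a from fun a => by omega, Nat.sub_self, Nat.zero_sub,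
      show (1 : ℕ) - 2 = 0 by rfl] at key2 ⊢ <;>
    linear_combination key2

set_option maxHeartbeats 8000000 in
theorem O4 (n i j m : ℕ) (h : n = 2 * i + j + m + 1) :
    D0 n (D1 n (bas i j m)) = C (2 * (2 * (i : ℚ) + j + 2)) * bas (i+1) j m
      + C (2 * (m : ℚ)) * bas (i+1) (j+1) (m-1)
      + (C ((i : ℚ) * (i + j)) * bas i j (m+1)
      + C ((i : ℚ) * (i + m + 2)) * bas i (j+1) m
      + C ((m : ℚ) * (2 * n + 3 - m)) * bas (i+1) j (m-1)
      + C ((m : ℚ) * (m - 1)) * bas (i+1) (j+1) (m-2)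
      + C ((j : ℚ) * (j - 1)) * bas (i+1) (j-2) (m+1)
      + C ((j : ℚ) * (2 * n + 3 - j)) * bas (i+1) (j-1) m) := by
  have hn : (n : MvPolynomial (Fin 2) ℚ) = 2 * i + j + m + 1 := by
    rw [h]; push_cast; rfl
  rw [D1_bas n i j m]
  unfold D0
  simp only [map_add, map_sub, Derivation.leibniz, Derivation.map_one_eq_zero, pd_s0, pd_w0,
    pderiv_X_self, pderiv_X_of_ne (show (1 : Fin 2) ≠ 0 by simp), smul_eq_mul, Derivation.map_natCast]
  have key := theta_p0 i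
  unfold bas
  simp only [map_mul, map_neg, map_add, map_sub, map_natCast, map_one, map_ofNat, Derivation.leibniz, pd_s0, pd_w0, smul_eq_mul]
  rw [hn]
  generalize (pderiv 0) ((X 0 * X 1 : MvPolynomial (Fin 2) ℚ) ^ i) = p at key ⊢
  clear h hn
  have key2 := congrArg (fun z => ((1 - X 0) * ((1 - X 1) *
        ((i : MvPolynomial (Fin 2) ℚ) * (X 0 + X 1) ^ j * (1 + X 0 * X 1) ^ m
        + (j : MvPolynomial (Fin 2) ℚ) * X 1 * (X 0 + X 1) ^ (j-1) * (1 + X 0 * X 1) ^ m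
        + (m : MvPolynomial (Fin 2) ℚ) * (X 0 * X 1) * (X 0 + X 1) ^ j * (1 + X 0 * X 1) ^ (m-1))
        + (2 * i + j + m + 2 : MvPolynomial (Fin 2) ℚ) * X 1 * ((X 0 + X 1) ^ j * (1 + X 0 * X 1) ^ m))) * z) key
  clear key
  rcases j with _ | _ | j <;> rcases m with _ | _ | m <;>
    simp only [Nat.cast_zero, pow_zero, Nat.cast_add, Nat.cast_one, Nat.add_sub_cancel, zero_add, pow_one,
      show ∀ a : ℕ, a + 1 + 1 - 2 = a from fun a => by omega, Nat.sub_self, Nat.zero_sub,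
      show (1 : ℕ) - 2 = 0 by rfl] at key2 ⊢ <;>
    linear_combination key2

end Pool.Agent.R578.TS
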