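import Pool.Agent.R578.TS.Stmts

set_option autoImplicit false

/-!
# Two-sided gamma positivity for even and odd signed permutations: TS-5
-/

namespace Pool.Agent.R578.TS

open Finset MvPolynomial H750R3

theorem mc_succ (y : ℚ) (j : ℕ) : ((j : ℚ) + 1) * mc y (j + 1) = (y + j) * mc y j := by
  unfold mc
  rw [ascPochhammer_succ_eval, Nat.factorial_succ]
  have h1 : ((j.factorial : ℕ) : ℚ) ≠ 0 := by exact_mod_cast j.factorial_ne_zero
  have h2 : ((j : ℚ) + 1) ≠ 0 := by positivity
  push_cast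
  field_simp

theorem stmMcNat : StmMcNat := by
  intro a j
  unfold mc
  have h1 : (ascPochhammer ℚ j).eval (a : ℚ) = ((a.ascFactorial j : ℕ) : ℚ) := by
    rw [← ascPochhammer_nat_eq_ascFactorial, ascPochhammer_eval_cast]
  rw [h1, Nat.multichoose_eq, Nat.ascFactorial_eq_factorial_mul_choose']
  have h2 : ((j.factorial : ℕ) : ℚ) ≠ 0 := by exact_mod_cast j.factorial_ne_zero
  push_cast
  field_simp

theorem coeff_mk_one_pow (a n : ℕ) :
    PowerSeries.coeff n ((PowerSeries.mk 1 : PowerSeries ℤ) ^ a) = ((a.multichoose n : ℕ) : ℤ) := by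
  rcases a with _ | a
  · rw [pow_zero, PowerSeries.coeff_one]
    rcases n with _ | n
    · simp
    · simp
  · rw [PowerSeries.mk_one_pow_eq_mk_choose_add, PowerSeries.coeff_mk, Nat.multichoose_eq,
      show a + 1 + n - 1 = a + n by omega, ← Nat.choose_symm_add]

theorem stmVand : StmVand := by
  intro a b n
  have h : (((a + b).multichoose n : ℕ) : ℤ) =
      ((∑ j ∈ range (n + 1), a.multichoose j * b.multichoose (n - j) : ℕ) : ℤ) := by
    rw [← coeff_mk_one_pow, pow_add, PowerSeries.coeff_mul,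
      Finset.Nat.sum_antidiagonal_eq_sum_range_succ (fun i j =>
        PowerSeries.coeff i ((PowerSeries.mk 1 : PowerSeries ℤ) ^ a) *
        PowerSeries.coeff j ((PowerSeries.mk 1 : PowerSeries ℤ) ^ b))]
    simp only [coeff_mk_one_pow]
    push_cast
    rfl
  exact_mod_cast h

theorem stmQV : StmQV := by
  intro n j x y hj
  unfold Qf
  have h := mc_succ ((x + 1) * (y + 1)) (n - j)
  rw [show n + 1 - j = n - j + 1 by omega]
  have e : (((n - j : ℕ) : ℚ)) = n - j := by
    rw [Nat.cast_sub hj]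
  rw [e] at h
  linear_combination (mc (x * y) j) * h

theorem stmQK : StmQK := by
  intro j x y
  unfold Qf
  have h := mc_succ (x * y) j
  rw [show 2 * j + 2 - (j + 1) = j + 1 by omega, show 2 * j + 1 - j = j + 1 by omega]
  linear_combination (mc ((x + 1) * (y + 1)) (j + 1)) * h

theorem stmQrefl : StmQrefl := by
  intro n j x y hj
  unfold Qf
  have e1 : (-1 - x) * (-1 - y) = (x + 1) * (y + 1) := by ring
  have e2 : (-1 - x + 1) * (-1 - y + 1) = x * y := by ring
  rw [e1, e2, show n - (n - j) = j by omega, mul_comm]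

theorem Bn_refl (n a : ℕ) (h : a ≤ n) (x : ℚ) : Bn n a (-1 - x) = (-1) ^ n * Bn n (n - a) x := by
  unfold Bn
  have h1 := ascPochhammer_eval_neg_eq_descPochhammer (R := ℚ) (-1 - x + n - a) n
  have h2 := descPochhammer_eval_eq_ascPochhammer (R := ℚ) (x + n - ((n - a : ℕ) : ℚ)) n
  rw [Nat.cast_sub h] at h2
  rw [Nat.cast_sub h, h2]
  have e1 : x + ↑n - (↑n - ↑a) - ↑n + 1 = -(-1 - x + (n : ℚ) - a) := by ring
  rw [e1, h1, ← mul_div_assoc, ← mul_assoc, ← pow_add, ← two_mul, pow_mul]
  norm_num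

theorem Phi_bas (n : ℕ) (x y : ℚ) (i m q : ℕ) :
    Phi n n x y (bas i m q) = ∑ u ∈ range (m + 1), ∑ v ∈ range (q + 1),
      ((m.choose u : ℕ) : ℚ) * ((q.choose v : ℕ) : ℚ) *
        (Bn n (i + u + v) x * Bn n (i + (m - u) + v) y) := by
  have h : bas i m q = ∑ u ∈ range (m + 1), ∑ v ∈ range (q + 1),
      monomial (Finsupp.single 0 (i + u + v) + Finsupp.single 1 (i + (m - u) + v))
        (((m.choose u : ℕ) : ℚ) * ((q.choose v : ℕ) : ℚ)) := by
    unfold bas
    rw [add_pow (X 0 : MvPolynomial (Fin 2) ℚ) (X 1) m, add_comm (1 : MvPolynomial (Fin 2) ℚ) _,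
      add_pow, mul_assoc, sum_mul_sum, mul_sum]
    refine sum_congr rfl fun u _ => ?_
    rw [mul_sum]
    refine sum_congr rfl fun v _ => ?_
    have e : (monomial (Finsupp.single 0 (i + u + v) + Finsupp.single 1 (i + (m - u) + v))
        (((m.choose u : ℕ) : ℚ) * ((q.choose v : ℕ) : ℚ)) : MvPolynomial (Fin 2) ℚ) =
        C (((m.choose u : ℕ) : ℚ) * ((q.choose v : ℕ) : ℚ)) *
          (X 0 ^ (i + u + v) * X 1 ^ (i + (m - u) + v)) := by
      rw [X_pow_eq_monomial, X_pow_eq_monomial, monomial_mul, C_mul_monomial]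
      simp
    rw [e]
    simp only [map_mul, map_natCast, one_pow]
    ring
  rw [h]
  simp only [map_sum, Phi_monomial]
  refine sum_congr rfl fun u _ => sum_congr rfl fun v _ => ?_
  simp [Finsupp.single_apply]

theorem Phi_refl_gen (n : ℕ) (x y : ℚ) (i i' m q : ℕ) (h : i + i' + m + q = n) :
    Phi n n (-1 - x) (-1 - y) (bas i m q) = Phi n n x y (bas i' m q) := by
  rw [Phi_bas, Phi_bas, ← sum_range_reflect]
  refine sum_congr rfl fun u hu => ?_
  rw [← sum_range_reflect]
  refine sum_congr rfl fun v hv => ?_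
  rw [mem_range] at hu hv
  rw [show m + 1 - 1 - u = m - u by omega, show q + 1 - 1 - v = q - v by omega,
    Nat.choose_symm (by omega), Nat.choose_symm (by omega),
    Bn_refl n _ (by omega), Bn_refl n _ (by omega),
    show n - (i + (m - u) + (q - v)) = i' + u + v by omega,
    show n - (i + (m - (m - u)) + (q - v)) = i' + (m - u) + v by omega]
  have : ((-1 : ℚ) ^ n) * (-1) ^ n = 1 := by rw [← pow_add, ← two_mul, pow_mul]; norm_num
  linear_combination ((m.choose u : ℕ) : ℚ) * ((q.choose v : ℕ) : ℚ) *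
    (Bn n (i' + u + v) x * Bn n (i' + (m - u) + v) y) * this

theorem stmReflA : StmReflA := by
  intro n i m q x y h
  exact Phi_refl_gen n x y i i m q (by omega)

theorem stmReflB : StmReflB := by
  intro n i m q x y h
  exact Phi_refl_gen n x y i (i + 1) m q (by omega)

end Pool.Agent.R578.TS
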