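import Pool.Agent.R578.TS.Stmts
import Pool.Agent.H750R3.Final

set_option autoImplicit false

/-!
# Two-sided gamma positivity for even and odd signed permutations: assembly
-/

namespace Pool.Agent.R578.TS

open Pool.Agent.R578.SE Finset Equiv MvPolynomial

/-! ### counting identities -/

/-- the sign character of the hyperoctahedral group -/
def chiB {n : ℕ} (w : SP n) : ℤ := ((Perm.sign w.1 : ℤˣ) : ℤ) * (-1) ^ (neg w)

/-- product of the two binomial coefficients -/
def bb (n k l : ℕ) (w : SP n) : ℤ :=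
  (((k + n - desB (sinv w)).choose n : ℕ) : ℤ) * (((l + n - desB w).choose n : ℕ) : ℤ)

theorem two_gen (hLL : StmLL) (hDes : StmDes) (n k l : ℕ) (c : SP n → ℤ) (f : List ℤ → ℤ)
    (hc : ∀ x : Fin n → Let l, (∀ v, (x v).2 = true → 1 ≤ ((x v).1 : ℕ)) →
      c (wx x) = f (List.ofFn fun v => hh (x v))) :
    ∑ w : SP n, c w * bb n k l w = S (LL k l) n f := by
  have h := master n l (fun w => c w * (((k + n - desB (sinv w)).choose n : ℕ) : ℤ))
  rw [← hLL]
  unfold bb
  simp_rw [← mul_assoc]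
  rw [h]
  refine sum_congr rfl fun x _ => ?_
  by_cases hx : ∀ v, (x v).2 = true → 1 ≤ ((x v).1 : ℕ)
  · have e1 := hDes n l x hx
    have e2 := hc x hx
    unfold wx at e1 e2
    rw [e1, e2, mul_assoc]
  · push Not at hx
    obtain ⟨v, hv1, hv2⟩ := hx
    have : ∏ v, ind (x v) = 0 := by
      apply prod_eq_zero (mem_univ v)
      unfold ind
      rw [if_neg]
      intro h
      have := h hv1
      omega
    rw [this]
    simp

theorem two_count (hLL : StmLL) (hDes : StmDes) (hC : StmCard) (n k l : ℕ) :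
    ∑ w : SP n, bb n k l w = (((2 * k * l + k + l + 1).multichoose n : ℕ) : ℤ) := by
  have h := two_gen hLL hDes n k l (fun _ => 1) (fun _ => 1) (fun _ _ => rfl)
  rw [hC] at h
  rw [← h]
  simp

theorem two_sign (hLL : StmLL) (hDes : StmDes) (hE : StmEp) (hS : StmSign) (n k l : ℕ) :
    ∑ w : SP n, chiB w * bb n k l w = ∑ j ∈ range (n + 1), (-1 : ℤ) ^ j *
      (((k * l).multichoose j : ℕ) : ℤ) * ((((k + 1) * (l + 1)).multichoose (n - j) : ℕ) : ℤ) := by
  rw [← hS]
  refine two_gen hLL hDes n k l _ _ fun x hx => ?_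
  rw [← hE n l x hx]
  unfold chiB wx
  rw [sign_FF, neg_pow]

/-! ### the polynomial -/

theorem desB_le {n : ℕ} (w : SP n) : desB w ≤ n := by
  rcases n with _ | m
  · have h1 : (univ : Finset (Fin 0)) = ∅ := rfl
    have h2 : (univ : Finset (Fin 0 × Fin 0)) = ∅ := rfl
    simp [desB, des]
  · have hinj : Function.Injective (ent w) := fun i j h => w.1.injective (val_inj w.2 h)
    have h1 := des_add_asx hinj
    have h2 : (univ.filter (fun i : Fin (m + 1) => (i : ℕ) = 0 ∧ ent w i < 0)).card ≤ 1 := by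
      rw [card_le_one]
      intro a ha b hb
      simp only [mem_filter, mem_univ, true_and] at ha hb
      exact Fin.ext (ha.1.trans hb.1.symm)
    unfold desB
    omega

/-- the two-sided descent polynomial of the elements of sign `e` -/
noncomputable def PB (n : ℕ) (e : ℤˣ) : MvPolynomial (Fin 2) ℚ :=
  ∑ w ∈ univ.filter (fun w : SP n => (-1 : ℤˣ) ^ lenB w = e),
    X 0 ^ desB (sinv w) * X 1 ^ desB w

theorem degreeOf_PB (n : ℕ) (e : ℤˣ) (v : Fin 2) : degreeOf v (PB n e) ≤ n := by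
  unfold PB
  refine (degreeOf_sum_le _ _ _).trans (Finset.sup_le fun w _ => ?_)
  have h1 := desB_le w
  have h2 := desB_le (sinv w)
  refine (degreeOf_mul_le _ _ _).trans ?_
  have h3 : ∀ (u : Fin 2) (a : ℕ), degreeOf v (X u ^ a : MvPolynomial (Fin 2) ℚ)
      ≤ if v = u then a else 0 := by
    intro u a
    refine (degreeOf_pow_le _ _ _).trans ?_
    rw [degreeOf_X]
    split_ifs <;> simp
  refine (Nat.add_le_add (h3 0 _) (h3 1 _)).trans ?_
  fin_cases v <;> simp <;> omega

theorem Phi_PB (n : ℕ) (e : ℤˣ) (k l : ℕ) :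
    H750R3.Phi n n k l (PB n e) =
      ((∑ w ∈ univ.filter (fun w : SP n => (-1 : ℤˣ) ^ lenB w = e), bb n k l w : ℤ) : ℚ) := by
  unfold PB
  rw [map_sum]
  push_cast
  refine sum_congr rfl fun w _ => ?_
  have h2 : (X 0 ^ desB (sinv w) * X 1 ^ desB w : MvPolynomial (Fin 2) ℚ)
      = monomial (Finsupp.single 0 (desB (sinv w)) + Finsupp.single 1 (desB w)) 1 := by
    rw [X_pow_eq_monomial, X_pow_eq_monomial, monomial_mul, one_mul]
  rw [h2, H750R3.Phi_monomial]
  simp only [Finsupp.coe_add, Pi.add_apply, Finsupp.single_apply, one_mul, if_true,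
    show ((0 : Fin 2) = 1) = False by simp, show ((1 : Fin 2) = 0) = False by simp, if_false,
    add_zero, zero_add]
  rw [H750R3.Bn_nat _ _ _ (desB_le _), H750R3.Bn_nat _ _ _ (desB_le _)]
  unfold bb
  have h3 := desB_le w
  have h4 := desB_le (sinv w)
  rw [Nat.add_sub_assoc h3, Nat.add_sub_assoc h4]
  push_cast
  ring

theorem Phi_PB' (hLL : StmLL) (hDes : StmDes) (hE : StmEp) (hC : StmCard) (hS : StmSign)
    (hV : StmVand) (hM : StmMcNat) (n : ℕ) (e : ℤˣ) (k l : ℕ) :
    2 * H750R3.Phi n n k l (PB n e) =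
      ∑ j ∈ range (n + 1), (1 + ((e : ℤ) : ℚ) * (-1) ^ j) * Qf n j k l := by
  have h1 : (2 : ℤ) * ∑ w ∈ univ.filter (fun w : SP n => (-1 : ℤˣ) ^ lenB w = e), bb n k l w =
      ∑ w : SP n, bb n k l w + (e : ℤ) * ∑ w : SP n, chiB w * bb n k l w := by
    rw [mul_sum, mul_sum, ← sum_add_distrib, sum_filter]
    refine sum_congr rfl fun w _ => ?_
    have h2 : chiB w = (((-1 : ℤˣ) ^ lenB w : ℤˣ) : ℤ) := by
      rw [sign_lenB]
      unfold chiB
      push_cast
      rfl
    rw [h2]
    rcases Int.units_eq_one_or ((-1 : ℤˣ) ^ lenB w) with h | h <;>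
    rcases Int.units_eq_one_or e with h' | h' <;> simp [h, h'] <;> ring
  have h2 : (2 : ℚ) * H750R3.Phi n n k l (PB n e) =
      ((∑ w : SP n, bb n k l w + (e : ℤ) * ∑ w : SP n, chiB w * bb n k l w : ℤ) : ℚ) := by
    rw [Phi_PB, ← h1]
    push_cast
    ring
  rw [h2, two_count hLL hDes hC, two_sign hLL hDes hE hS]
  have e1 : 2 * k * l + k + l + 1 = k * l + (k + 1) * (l + 1) := by ring
  rw [e1, hV]
  push_cast
  rw [mul_sum, ← sum_add_distrib]
  refine sum_congr rfl fun j _ => ?_
  unfold Qf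
  have e2 : (k : ℚ) * l = ((k * l : ℕ) : ℚ) := by push_cast; ring
  have e3 : ((k : ℚ) + 1) * (l + 1) = (((k + 1) * (l + 1) : ℕ) : ℚ) := by push_cast; ring
  rw [e2, e3, hM, hM]
  ring

/-! ### gamma -/

theorem bas_succ (i m q : ℕ) :
    H750R3.bas i m (q + 1) = H750R3.bas i m q + H750R3.bas (i + 1) m q := by
  unfold H750R3.bas
  ring

theorem exists_gam (hAB : StmAB) (hA : StmReflA) (hB : StmReflB) (hR : StmQrefl) (n j : ℕ)
    (hj : j ≤ n) : ∃ c : ℕ → ℕ → ℚ, (∀ i m, 0 ≤ c i m) ∧ ∀ x y : ℚ,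
      H750R3.Phi n n x y (gpol n c) = Qf n j x y + Qf n (n - j) x y := by
  wlog h : 2 * j ≤ n generalizing j
  · obtain ⟨c, hc, hP⟩ := this (n - j) (by omega) (by omega)
    refine ⟨c, hc, fun x y => ?_⟩
    rw [hP, show n - (n - j) = j by omega, add_comm]
  obtain ⟨a, b, ha, hb, hsa, hsb, -, hP⟩ := hAB n j h
  refine ⟨fun i m => 2 * a i m + b i m, fun i m => by have := ha i m; have := hb i m; positivity, ?_⟩
  intro x y
  have h1 : Qf n (n - j) x y = H750R3.Phi n n (-1 - x) (-1 - y) (gpol n a + gpol' n b) := by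
    rw [hP, hR n j x y hj]
  have hCm : ∀ (x y c : ℚ) (p : MvPolynomial (Fin 2) ℚ),
      H750R3.Phi n n x y (C c * p) = c * H750R3.Phi n n x y p := by
    intro x y c p
    rw [← smul_eq_C_mul, map_smul, smul_eq_mul]
  have h2 : H750R3.Phi n n (-1 - x) (-1 - y) (gpol n a) = H750R3.Phi n n x y (gpol n a) := by
    unfold gpol
    simp only [map_sum, hCm]
    refine sum_congr rfl fun i hi => sum_congr rfl fun m hm => ?_
    rw [mem_range] at hi hm
    rw [hA n i m _ x y (by omega)]
  have h3 : H750R3.Phi n n x y (gpol' n b) + H750R3.Phi n n (-1 - x) (-1 - y) (gpol' n b) =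
      H750R3.Phi n n x y (gpol n b) := by
    unfold gpol gpol'
    simp only [map_sum, hCm]
    rw [← sum_add_distrib, sum_range_succ]
    have hlast : ∑ m ∈ range (n + 1 - 2 * n), b n m *
        H750R3.Phi n n x y (H750R3.bas n m (n - 2 * n - m)) = 0 := by
      apply sum_eq_zero
      intro m hm
      rw [mem_range] at hm
      have : b n m = 0 := by
        by_contra hne
        have := (hsb n m hne).1
        omega
      rw [this, zero_mul]
    rw [hlast, add_zero]
    refine sum_congr rfl fun i hi => ?_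
    rw [mem_range] at hi
    rw [← sum_add_distrib]
    by_cases h2i : 2 * i ≤ n
    · rw [show n + 1 - 2 * i = (n - 2 * i) + 1 by omega, sum_range_succ]
      have : b i (n - 2 * i) = 0 := by
        by_contra hne
        have := (hsb i _ hne).1
        omega
      rw [this, zero_mul, add_zero]
      refine sum_congr rfl fun m hm => ?_
      rw [mem_range] at hm
      rw [hB n i m _ x y (by omega), ← mul_add, ← map_add, ← bas_succ,
        show n - 1 - 2 * i - m + 1 = n - 2 * i - m by omega]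
    · rw [show n - 2 * i = 0 by omega, show n + 1 - 2 * i = 0 by omega]
      simp
  have h4 : H750R3.Phi n n x y (gpol n (fun i m => 2 * a i m + b i m)) =
      2 * H750R3.Phi n n x y (gpol n a) + H750R3.Phi n n x y (gpol n b) := by
    unfold gpol
    simp only [map_sum, hCm]
    rw [mul_sum, ← sum_add_distrib]
    refine sum_congr rfl fun i _ => ?_
    rw [mul_sum, ← sum_add_distrib]
    refine sum_congr rfl fun m _ => ?_
    ring
  have h5 := hP x y
  rw [h4, ← h3, h1, map_add, h2, ← h5, map_add]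
  ring

theorem degreeOf_gpol (n : ℕ) (c : ℕ → ℕ → ℚ) (v : Fin 2) : degreeOf v (gpol n c) ≤ n := by
  unfold gpol
  refine (degreeOf_sum_le _ _ _).trans (Finset.sup_le fun i hi => ?_)
  refine (degreeOf_sum_le _ _ _).trans (Finset.sup_le fun j hj => ?_)
  rw [Finset.mem_range] at hi hj
  refine (degreeOf_C_mul_le _ _ _).trans ((H750R3.degreeOf_bas v _ _ _).trans ?_)
  omega

theorem PB_eq (hLL : StmLL) (hDes : StmDes) (hE : StmEp) (hC : StmCard) (hS : StmSign)
    (hV : StmVand) (hM : StmMcNat) (hAB : StmAB) (hA : StmReflA) (hB : StmReflB) (hR : StmQrefl)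
    (n : ℕ) (hn : Even n) (e : ℤˣ) : ∃ c : ℕ → ℕ → ℚ, (∀ i m, 0 ≤ c i m) ∧ PB n e = gpol n c := by
  have hg : ∀ j : ℕ, ∃ c : ℕ → ℕ → ℚ, j ≤ n → (∀ i m, 0 ≤ c i m) ∧ ∀ x y : ℚ,
      H750R3.Phi n n x y (gpol n c) = Qf n j x y + Qf n (n - j) x y := by
    intro j
    by_cases hj : j ≤ n
    · obtain ⟨c, hc⟩ := exists_gam hAB hA hB hR n j hj
      exact ⟨c, fun _ => hc⟩
    · exact ⟨fun _ _ => 0, fun h => absurd h hj⟩
  choose c hc using hg
  have he : ∀ j : ℕ, (0 : ℚ) ≤ 1 + ((e : ℤ) : ℚ) * (-1) ^ j := by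
    intro j
    rcases Int.units_eq_one_or e with h' | h' <;>
    rcases neg_one_pow_eq_or ℚ j with h | h <;> simp [h, h']
  set g : ℕ → ℕ → ℚ := fun i m => ∑ j ∈ range (n + 1), (1 + ((e : ℤ) : ℚ) * (-1) ^ j) / 4 * c j i m
    with hgdef
  have hCm : ∀ (x y c : ℚ) (p : MvPolynomial (Fin 2) ℚ),
      H750R3.Phi n n x y (C c * p) = c * H750R3.Phi n n x y p := by
    intro x y c p
    rw [← smul_eq_C_mul, map_smul, smul_eq_mul]
  refine ⟨g, fun i m => ?_, ?_⟩
  · refine sum_nonneg fun j hj => ?_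
    rw [mem_range] at hj
    have := (hc j (by omega)).1 i m
    have := he j
    positivity
  · rw [← sub_eq_zero]
    apply H750R3.eq_zero_of_Phi n
    · intro v
      exact (degreeOf_sub_le _ _ _).trans (max_le (degreeOf_PB n e v) (degreeOf_gpol n g v))
    · intro k l
      rw [map_sub]
      have h1 := Phi_PB' hLL hDes hE hC hS hV hM n e k l
      have h2 : H750R3.Phi n n k l (gpol n g) =
          ∑ j ∈ range (n + 1), (1 + ((e : ℤ) : ℚ) * (-1) ^ j) / 4 *
            (Qf n j k l + Qf n (n - j) k l) := by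
        have h3 : ∀ j ∈ range (n + 1), (1 + ((e : ℤ) : ℚ) * (-1) ^ j) / 4 *
            (Qf n j k l + Qf n (n - j) k l) = (1 + ((e : ℤ) : ℚ) * (-1) ^ j) / 4 *
              H750R3.Phi n n k l (gpol n (c j)) := by
          intro j hj
          rw [mem_range] at hj
          rw [(hc j (by omega)).2]
        rw [sum_congr rfl h3]
        have hgp : ∀ d : ℕ → ℕ → ℚ, H750R3.Phi n n (k : ℚ) (l : ℚ) (gpol n d) =
            ∑ i ∈ range (n + 1), ∑ m ∈ range (n + 1 - 2 * i),
              d i m * H750R3.Phi n n (k : ℚ) (l : ℚ) (H750R3.bas i m (n - 2 * i - m)) := by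
          intro d
          unfold gpol
          simp only [map_sum, hCm]
        simp only [hgp, hgdef]
        have e1 : ∀ i ∈ range (n + 1), ∑ m ∈ range (n + 1 - 2 * i),
            (∑ j ∈ range (n + 1), (1 + ((e : ℤ) : ℚ) * (-1) ^ j) / 4 * c j i m) *
              H750R3.Phi n n (k : ℚ) (l : ℚ) (H750R3.bas i m (n - 2 * i - m)) =
            ∑ j ∈ range (n + 1), ∑ m ∈ range (n + 1 - 2 * i),
              (1 + ((e : ℤ) : ℚ) * (-1) ^ j) / 4 * (c j i m *
              H750R3.Phi n n (k : ℚ) (l : ℚ) (H750R3.bas i m (n - 2 * i - m))) := by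
          intro i _
          rw [sum_comm]
          refine sum_congr rfl fun m _ => ?_
          rw [sum_mul]
          refine sum_congr rfl fun j _ => ?_
          ring
        rw [sum_congr rfl e1, sum_comm]
        refine sum_congr rfl fun j _ => ?_
        rw [mul_sum]
        refine sum_congr rfl fun i _ => ?_
        rw [mul_sum]
      have h4 : ∑ j ∈ range (n + 1), (1 + ((e : ℤ) : ℚ) * (-1) ^ j) * Qf n (n - j) k l =
          ∑ j ∈ range (n + 1), (1 + ((e : ℤ) : ℚ) * (-1) ^ j) * Qf n j k l := by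
        rw [← sum_range_reflect]
        refine sum_congr rfl fun j hj => ?_
        rw [mem_range] at hj
        have e1 : n + 1 - 1 - j = n - j := by omega
        rw [e1, show n - (n - j) = j by omega]
        have e2 : (-1 : ℚ) ^ (n - j) = (-1) ^ j := by
          have e3 : (-1 : ℚ) ^ (n - j) * (-1) ^ j = 1 := by
            rw [← pow_add, Nat.sub_add_cancel (by omega), hn.neg_one_pow]
          rcases neg_one_pow_eq_or ℚ j with h | h <;> rw [h] at e3 ⊢ <;> linarith
        rw [e2]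
      have h5 : H750R3.Phi n n k l (gpol n g) = 1 / 4 *
          (∑ j ∈ range (n + 1), (1 + ((e : ℤ) : ℚ) * (-1) ^ j) * Qf n j k l +
           ∑ j ∈ range (n + 1), (1 + ((e : ℤ) : ℚ) * (-1) ^ j) * Qf n (n - j) k l) := by
        rw [h2, ← sum_add_distrib, mul_sum]
        refine sum_congr rfl fun j _ => ?_
        ring
      rw [h5, h4, ← h1]
      ring

/-- the final statement -/
theorem final (hLL : StmLL) (hDes : StmDes) (hE : StmEp) (hC : StmCard) (hS : StmSign)
    (hV : StmVand) (hM : StmMcNat) (hAB : StmAB) (hA : StmReflA) (hB : StmReflB) (hR : StmQrefl)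
    (n : ℕ) (hn : Even n) (e : ℤˣ) : ∃ c : ℕ → ℕ → ℝ, (∀ i m, 0 ≤ c i m) ∧ ∀ s t : ℝ,
      ∑ w ∈ univ.filter (fun w : SP n => (-1 : ℤˣ) ^ lenB w = e),
        t ^ desB w * s ^ desB (sinv w) =
      ∑ i ∈ range (n + 1), ∑ j ∈ range (n + 1 - 2 * i),
        c i j * (s * t) ^ i * (s + t) ^ j * (1 + s * t) ^ (n - 2 * i - j) := by
  obtain ⟨c, hc, h⟩ := PB_eq hLL hDes hE hC hS hV hM hAB hA hB hR n hn e
  refine ⟨fun i m => (c i m : ℝ), fun i m => Rat.cast_nonneg.2 (hc i m), fun s t => ?_⟩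
  have h1 := congrArg (aeval (fun v : Fin 2 => if v = 0 then s else t)) h
  unfold PB gpol H750R3.bas at h1
  simp only [map_sum, map_mul, map_pow, map_add, map_one, aeval_X, aeval_C, if_true,
    show ((1 : Fin 2) = 0) = False by simp, if_false] at h1
  have h2 : ∀ q : ℚ, (algebraMap ℚ ℝ) q = (q : ℝ) := fun q => by simp
  simp only [h2] at h1
  rw [← sum_congr rfl (fun w _ => mul_comm (s ^ desB (sinv w)) (t ^ desB w)), h1]
  refine sum_congr rfl fun i _ => sum_congr rfl fun j _ => ?_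
  ring

end Pool.Agent.R578.TS
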