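import Pool.Agent.R578.TS.Defs
import Pool.Agent.R578.SE.CountB

/-!
# Two-sided gamma positivity for even and odd signed permutations: statements of the pieces
-/

namespace Pool.Agent.R578.TS

open Pool.Agent.R578.SE Finset Equiv MvPolynomial

/-- the signed value of a letter -/
def hh {l : ℕ} (y : Let l) : ℤ := if y.2 = true then -((y.1 : ℕ) : ℤ) else ((y.1 : ℕ) : ℤ)

/-- the signed permutation sorted from the word `x` -/
def wx {n l : ℕ} (x : Fin n → Let l) : SP n :=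
  (Tuple.sort (FF (fun v => (x v).2) (fun v => (x v).1)), fun v => (x v).2)

/-! ## TS-1 -/

/-- sum over all admissible words, weighted by the number of block decompositions -/
def StmLL : Prop := ∀ (n k l : ℕ) (f : List ℤ → ℤ),
  ∑ x : Fin n → Let l, (∏ v, ind (x v)) * (f (List.ofFn fun v => hh (x v)) *
    (((k + n - dl (0 :: List.ofFn fun v => hh (x v))).choose n : ℕ) : ℤ)) = S (LL k l) n f

/-! ## TS-2 -/

def StmDes : Prop := ∀ (n l : ℕ) (x : Fin n → Let l), (∀ v, (x v).2 = true → 1 ≤ ((x v).1 : ℕ)) →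
  desB (sinv (wx x)) = dl (0 :: List.ofFn fun v => hh (x v))

def StmEp : Prop := ∀ (n l : ℕ) (x : Fin n → Let l), (∀ v, (x v).2 = true → 1 ≤ ((x v).1 : ℕ)) →
  EE x * ∏ v, (if (x v).2 = true then (-1 : ℤ) else 1) = ep (List.ofFn fun v => hh (x v))

/-! ## TS-3 -/

def StmCard : Prop := ∀ n k l : ℕ,
  S (LL k l) n (fun _ => 1) = (((2 * k * l + k + l + 1).multichoose n : ℕ) : ℤ)

def StmSign : Prop := ∀ n k l : ℕ, S (LL k l) n ep =
  ∑ j ∈ range (n + 1), (-1 : ℤ) ^ j * (((k * l).multichoose j : ℕ) : ℤ) *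
    ((((k + 1) * (l + 1)).multichoose (n - j) : ℕ) : ℤ)

/-! ## TS-4 -/

open H750R3 in
/-- support of the first cone -/
def SA (n j i m : ℕ) : Prop := 2 * i + m ≤ n ∧ (n : ℤ) - j ≤ i * (n + 1 - i - m)

/-- support of the second cone -/
def SB (n j i m : ℕ) : Prop := 2 * i + m + 1 ≤ n ∧ (n : ℤ) - j ≤ (i + 1) * (n - i - m)

/-- the polynomial with gamma coefficients `c`, center `n` -/
noncomputable def gpol (n : ℕ) (c : ℕ → ℕ → ℚ) : MvPolynomial (Fin 2) ℚ :=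
  ∑ i ∈ range (n + 1), ∑ m ∈ range (n + 1 - 2 * i), C (c i m) * H750R3.bas i m (n - 2 * i - m)

/-- the polynomial with gamma coefficients `c`, center `n - 1` -/
noncomputable def gpol' (n : ℕ) (c : ℕ → ℕ → ℚ) : MvPolynomial (Fin 2) ℚ :=
  ∑ i ∈ range n, ∑ m ∈ range (n - 2 * i), C (c i m) * H750R3.bas i m (n - 1 - 2 * i - m)

def StmAB : Prop := ∀ n j : ℕ, 2 * j ≤ n → ∃ a b : ℕ → ℕ → ℚ,
  (∀ i m, 0 ≤ a i m) ∧ (∀ i m, 0 ≤ b i m) ∧ (∀ i m, a i m ≠ 0 → SA n j i m) ∧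
  (∀ i m, b i m ≠ 0 → SB n j i m) ∧ (n = 2 * j → gpol' n b = 0) ∧
  ∀ x y : ℚ, H750R3.Phi n n x y (gpol n a + gpol' n b) = Qf n j x y

/-! ## TS-5 -/

def StmReflA : Prop := ∀ (n i m q : ℕ) (x y : ℚ), 2 * i + m + q = n →
  H750R3.Phi n n (-1 - x) (-1 - y) (H750R3.bas i m q) = H750R3.Phi n n x y (H750R3.bas i m q)

def StmReflB : Prop := ∀ (n i m q : ℕ) (x y : ℚ), 2 * i + m + q + 1 = n →
  H750R3.Phi n n (-1 - x) (-1 - y) (H750R3.bas i m q) = H750R3.Phi n n x y (H750R3.bas (i + 1) m q)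

def StmMcNat : Prop := ∀ a j : ℕ, mc (a : ℚ) j = ((a.multichoose j : ℕ) : ℚ)

def StmVand : Prop := ∀ (a b n : ℕ), (a + b).multichoose n =
  ∑ j ∈ range (n + 1), a.multichoose j * b.multichoose (n - j)

def StmQV : Prop := ∀ (n j : ℕ) (x y : ℚ), j ≤ n →
  ((n : ℚ) + 1 - j) * Qf (n + 1) j x y = ((x + 1) * (y + 1) + (n - j)) * Qf n j x y

def StmQK : Prop := ∀ (j : ℕ) (x y : ℚ),
  ((j : ℚ) + 1) * Qf (2 * j + 2) (j + 1) x y = (x * y + j) * Qf (2 * j + 1) j x y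

def StmQrefl : Prop := ∀ (n j : ℕ) (x y : ℚ), j ≤ n → Qf n j (-1 - x) (-1 - y) = Qf n (n - j) x y

end Pool.Agent.R578.TS
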